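import Pool.Agent.helper76.RNGP.Weight

/-!
# Edges of relative neighbourhood graphs pack in a surface: sets of given dimension
-/

namespace Helper76.RNGP

open scoped InnerProductSpace
open Helper5.RNG Helper5.RNGraph

/-- Cells of points at distance less than `2 ^ (i + 2)`. -/
lemma fcell_near2 {i : ℤ} {x y : E} (h : dist x y < (2 : ℝ) ^ (i + 2)) (j : Fin 3) :
    cell (i - 4) y j - cell (i - 4) x j ∈ Finset.Icc (-128 : ℤ) 128 := by
  have hs : (0 : ℝ) < (2 : ℝ) ^ (i - 4 - 1) := by positivity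
  have h2 : (2 : ℝ) ^ (i + 2) = 128 * (2 : ℝ) ^ (i - 4 - 1) := by
    have : (128 : ℝ) = (2 : ℝ) ^ (7 : ℤ) := by norm_num
    rw [this, ← zpow_add₀ (by norm_num : (2 : ℝ) ≠ 0)]; congr 1; ring
  set s := (2 : ℝ) ^ (i - 4 - 1) with hsdef
  have h1 := abs_coord_le x y j
  have h3 : |y j / s - x j / s| < 128 := by
    have e1 : y j / s - x j / s = (y j - x j) / s := by ring
    rw [e1, abs_div, abs_of_pos hs, div_lt_iff₀ hs, ← h2]
    linarith
  obtain ⟨h4, h5⟩ := abs_lt.1 h3
  rw [Finset.mem_Icc]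
  have a1 := Int.floor_le (y j / s)
  have a2 := Int.lt_floor_add_one (y j / s)
  have b1 := Int.floor_le (x j / s)
  have b2 := Int.lt_floor_add_one (x j / s)
  have c1 : ((⌊y j / s⌋ - ⌊x j / s⌋ : ℤ) : ℝ) < 129 := by push_cast; linarith
  have c2 : (-129 : ℝ) < ((⌊y j / s⌋ - ⌊x j / s⌋ : ℤ) : ℝ) := by push_cast; linarith
  have c1' : ⌊y j / s⌋ - ⌊x j / s⌋ < 129 := by exact_mod_cast c1
  have c2' : -129 < ⌊y j / s⌋ - ⌊x j / s⌋ := by exact_mod_cast c2
  show -128 ≤ ⌊y j / s⌋ - ⌊x j / s⌋ ∧ ⌊y j / s⌋ - ⌊x j / s⌋ ≤ 128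
  omega

/-- The points of `P` near a point. -/
noncomputable def near (P : Finset E) (i : ℤ) (p : E) : Finset E := by
  classical exact P.filter (fun z => dist p z < (2 : ℝ) ^ (i + 2))

lemma mem_near {P : Finset E} {i : ℤ} {p z : E} :
    z ∈ near P i p ↔ z ∈ P ∧ dist p z < (2 : ℝ) ^ (i + 2) := by
  classical
  unfold near
  rw [Finset.mem_filter]

/-- The box of differences of fine cells, second size. -/
noncomputable def box2 : Finset (Fin 3 → ℤ) :=
  Fintype.piFinset (fun _ : Fin 3 => Finset.Icc (-128 : ℤ) 128)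

lemma box2_card : box2.card = 16974593 := by
  unfold box2
  rw [Fintype.card_piFinset]
  simp

lemma mem_box2 {f : Fin 3 → ℤ} : f ∈ box2 ↔ ∀ j, f j ∈ Finset.Icc (-128 : ℤ) 128 := by
  unfold box2
  rw [Fintype.mem_piFinset]

/-- Overlap of the neighbourhoods of representatives of the first halves of the keys. -/
lemma overlap (P : Finset E) (i : ℤ) (R : Finset (ℤ × (Fin 3 → ℤ)))
    (rep : ℤ × (Fin 3 → ℤ) → E × E) (hrep : ∀ t ∈ R, fone (rep t) = t)
    (hi : ∀ t ∈ R, scale (rep t).1 (rep t).2 = i) :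
    ∑ t ∈ R, (near P i (rep t).1).card ≤ 16974593 * P.card := by
  classical
  have h1 : ∀ t ∈ R, (near P i (rep t).1).card
      = ∑ z ∈ P, if dist (rep t).1 z < (2 : ℝ) ^ (i + 2) then 1 else 0 := by
    intro t _
    unfold near
    rw [Finset.card_filter]
  rw [Finset.sum_congr rfl h1, Finset.sum_comm]
  have h2 : ∀ z ∈ P, (∑ t ∈ R, if dist (rep t).1 z < (2 : ℝ) ^ (i + 2) then 1 else 0)
      ≤ 16974593 := by
    intro z _
    rw [← Finset.card_filter]
    have key : (R.filter (fun t => dist (rep t).1 z < (2 : ℝ) ^ (i + 2))).card ≤ box2.card := by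
     apply Finset.card_le_card_of_injOn (fun t => fun j => cell (i - 4) z j - t.2 j)
     · intro t ht
       have hh := Finset.mem_filter.1 (Finset.mem_coe.1 ht)
       have ht1 := hh.1
       have ht2 := hh.2
       have e1 : t.2 = cell (i - 4) (rep t).1 := by
         have := congrArg Prod.snd (hrep t ht1)
         rw [← this]
         unfold fone
         rw [hi t ht1]
       rw [Finset.mem_coe, mem_box2]
       intro j
       have h5 := fcell_near2 ht2 j
       rw [← e1] at h5
       exact h5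
     · intro t ht t' ht' hE
       have ht1 := (Finset.mem_filter.1 (Finset.mem_coe.1 ht)).1
       have ht1' := (Finset.mem_filter.1 (Finset.mem_coe.1 ht')).1
       have f1 : t.1 = i := by
         have := congrArg Prod.fst (hrep t ht1)
         rw [← this]
         exact hi t ht1
       have f2 : t'.1 = i := by
         have := congrArg Prod.fst (hrep t' ht1')
         rw [← this]
         exact hi t' ht1'
       refine Prod.ext (f1.trans f2.symm) ?_
       funext j
       have := congrFun hE j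
       simp only at this
       omega
    rw [box2_card] at key
    exact key
  calc _ ≤ ∑ z ∈ P, 16974593 := Finset.sum_le_sum h2
    _ = 16974593 * P.card := by rw [Finset.sum_const, smul_eq_mul, mul_comm]

/-- The edges of scale `i`. -/
noncomputable def edgesAt (P : Finset E) (i : ℤ) : Finset (E × E) := by
  classical exact (edges P).filter (fun e => scale e.1 e.2 = i)

lemma mem_edgesAt {P : Finset E} {i : ℤ} {e : E × E} :
    e ∈ edgesAt P i ↔ (relNbhd P).Adj e.1 e.2 ∧ scale e.1 e.2 = i := by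
  classical
  unfold edgesAt
  rw [Finset.mem_filter, mem_edges]

/-- Representatives of the first halves of the keys. -/
lemma exists_rep (T : Finset (E × E)) : ∃ rep : ℤ × (Fin 3 → ℤ) → E × E,
    ∀ t ∈ T.image fone, rep t ∈ T ∧ fone (rep t) = t := by
  classical
  have h : ∀ t : ℤ × (Fin 3 → ℤ), ∃ e : E × E, t ∈ T.image fone → e ∈ T ∧ fone e = t := by
    intro t
    by_cases ht : t ∈ T.image fone
    · obtain ⟨e, he, h⟩ := Finset.mem_image.1 ht
      exact ⟨e, fun _ => ⟨he, h⟩⟩
    · exact ⟨(0, 0), fun h => absurd h ht⟩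
  choose rep hrep using h
  exact ⟨rep, hrep⟩

/-- One scale, sets of dimension `d`. -/
theorem scale_dim {P : Finset E} {δ c d : ℝ} (hδ : 0 < δ) (hc : 0 < c) (hd : 0 ≤ d)
    (hsep : ∀ p ∈ P, ∀ q ∈ P, p ≠ q → δ ≤ dist p q)
    (hdim : ∀ p q, (relNbhd P).Adj p q →
      c * (dist p q / δ) ^ d ≤ (near P (scale p q) p).card) (i : ℤ) :
    ((edgesAt P i).card : ℝ) ≤ 983857645959579 / c * P.card * ((2 : ℝ) ^ i / δ) ^ (2 - d) := by
  classical
  set T := edgesAt P i with hTdef
  obtain ⟨rep, hrep⟩ := exists_rep T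
  have hp : (0 : ℝ) < (2 : ℝ) ^ i := by positivity
  have hx : 0 < (2 : ℝ) ^ i / δ := by positivity
  set x := (2 : ℝ) ^ i / δ with hxdef
  have h1 := scale_card hδ hsep i T (fun e he => (mem_edgesAt.1 he).1)
    (fun e he => (mem_edgesAt.1 he).2)
  have h2 := overlap P i (T.image fone) rep (fun t ht => (hrep t ht).2)
    (fun t ht => (mem_edgesAt.1 (hrep t ht).1).2)
  have h3 : ((T.image fone).card : ℝ) * (c * x ^ d) ≤ 16974593 * P.card := by
    have h4 : ((T.image fone).card : ℝ) * (c * x ^ d)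
        ≤ ∑ t ∈ T.image fone, ((near P i (rep t).1).card : ℝ) := by
      rw [← nsmul_eq_mul]
      apply Finset.card_nsmul_le_sum
      intro t ht
      obtain ⟨ha, hs⟩ := mem_edgesAt.1 (hrep t ht).1
      have h5 := hdim _ _ ha
      rw [hs] at h5
      refine le_trans ?_ h5
      have h6 := scale_le ha.2.2.1
      rw [hs] at h6
      have h7 : x ≤ dist (rep t).1 (rep t).2 / δ := div_le_div_of_nonneg_right h6 hδ.le
      exact mul_le_mul_of_nonneg_left (Real.rpow_le_rpow hx.le h7 hd) hc.le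
    refine h4.trans ?_
    exact_mod_cast h2
  have hxd : 0 < x ^ d := Real.rpow_pos_of_pos hx d
  have h8 : ((T.image fone).card : ℝ) ≤ 16974593 * P.card / (c * x ^ d) := by
    rw [le_div_iff₀ (by positivity)]
    exact h3
  have h9 : x ^ (2 - d) = x ^ 2 / x ^ d := by
    rw [Real.rpow_sub hx]
    norm_num
  calc (T.card : ℝ) ≤ (T.image fone).card * 57960603 * x ^ 2 := h1
    _ ≤ (16974593 * P.card / (c * x ^ d)) * 57960603 * x ^ 2 := by gcongr
    _ ≤ _ := by
      rw [h9]
      have hP : (0 : ℝ) ≤ P.card := Nat.cast_nonneg _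
      have e1 : 16974593 * (P.card : ℝ) / (c * x ^ d) * 57960603 * x ^ 2
          = 983857645959579 / c * P.card * (x ^ 2 / x ^ d) := by
        field_simp
        ring
      rw [e1]

lemma numEdges_le (P : Finset E) : numEdges P ≤ (edges P).card := by
  have hsub : (relNbhd P).edgeSet ⊆
      (fun e : E × E => s(e.1, e.2)) '' ((edges P : Finset (E × E)) : Set (E × E)) := by
    intro e he
    induction e using Sym2.ind with
    | _ p q =>
      have h : (relNbhd P).Adj p q := he
      exact ⟨(p, q), Finset.mem_coe.2 (mem_edges.2 h), rfl⟩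
  unfold numEdges
  refine (Set.ncard_le_ncard hsub ((Finset.finite_toSet _).image _)).trans ?_
  refine (Set.ncard_image_le (Finset.finite_toSet _)).trans ?_
  rw [Set.ncard_coe_finset]

/-- The scales of the edges. -/
noncomputable def scales (P : Finset E) : Finset ℤ := by
  classical exact (edges P).image (fun e => scale e.1 e.2)

lemma mem_scales {P : Finset E} {i : ℤ} :
    i ∈ scales P ↔ ∃ e ∈ edges P, scale e.1 e.2 = i := by
  classical
  unfold scales
  rw [Finset.mem_image]

lemma edges_card (P : Finset E) : (edges P).card = ∑ i ∈ scales P, (edgesAt P i).card := by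
  classical
  unfold scales edgesAt
  exact Finset.card_eq_sum_card_image (fun e : E × E => scale e.1 e.2) (edges P)

lemma two_lt_iff {i j : ℤ} : (2 : ℝ) ^ i < (2 : ℝ) ^ j ↔ i < j :=
  zpow_lt_zpow_iff_right₀ (by norm_num)

/-- Sets of dimension `d`, with explicit constants. -/
theorem dim_bound {P : Finset E} {δ c d : ℝ} {J : ℕ} (hδ : 0 < δ) (hc : 0 < c) (hd : 0 ≤ d)
    (hsep : ∀ p ∈ P, ∀ q ∈ P, p ≠ q → δ ≤ dist p q)
    (hJ : ∀ p ∈ P, ∀ q ∈ P, dist p q < 2 ^ J * δ)
    (hdim : ∀ p q, (relNbhd P).Adj p q →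
      c * (dist p q / δ) ^ d ≤ (near P (scale p q) p).card) :
    (numEdges P : ℝ) ≤ 983857645959579 / c * 2 ^ d * P.card *
      ∑ k ∈ Finset.range (J + 1), ((2 : ℝ) ^ (2 - d)) ^ k := by
  classical
  set i0 := Int.log 2 δ with hi0
  have b1 : (2 : ℝ) ^ i0 ≤ δ := by
    have := Int.zpow_log_le_self (b := 2) (by norm_num) hδ
    exact_mod_cast this
  have b2 : δ < (2 : ℝ) ^ (i0 + 1) := by
    have := Int.lt_zpow_succ_log_self (b := 2) (by norm_num) δ
    exact_mod_cast this
  have hbd : ∀ i ∈ scales P, i0 ≤ i ∧ i ≤ i0 + J := by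
    intro i hi
    obtain ⟨e, he, hs⟩ := mem_scales.1 hi
    have ha := mem_edges.1 he
    have h1 := scale_le ha.2.2.1
    have h2 := lt_scale e.1 e.2
    rw [hs] at h1 h2
    have h3 := hsep _ ha.1 _ ha.2.1 ha.2.2.1
    have h4 := hJ _ ha.1 _ ha.2.1
    have h5 : (2 : ℝ) ^ i0 < (2 : ℝ) ^ (i + 1) := by linarith
    have h6 : (2 : ℝ) ^ i < (2 : ℝ) ^ (i0 + 1 + J) := by
      rw [zpow_add₀ (by norm_num : (2 : ℝ) ≠ 0), zpow_natCast]
      have : (2 : ℝ) ^ J * δ < 2 ^ J * (2 : ℝ) ^ (i0 + 1) :=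
        mul_lt_mul_of_pos_left b2 (by positivity)
      linarith
    have h7 := two_lt_iff.1 h5
    have h8 := two_lt_iff.1 h6
    omega
  have hsum : ((edges P).card : ℝ) ≤ ∑ i ∈ scales P,
      983857645959579 / c * P.card * ((2 : ℝ) ^ i / δ) ^ (2 - d) := by
    rw [edges_card]
    push_cast
    exact Finset.sum_le_sum fun i _ => scale_dim hδ hc hd hsep hdim i
  have hterm : ∀ i ∈ scales P, 983857645959579 / c * P.card * ((2 : ℝ) ^ i / δ) ^ (2 - d)
      ≤ 983857645959579 / c * 2 ^ d * P.card * ((2 : ℝ) ^ (2 - d)) ^ (i - i0).toNat := by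
    intro i hi
    obtain ⟨h1, h2⟩ := hbd i hi
    set y := (2 : ℝ) ^ i0 / δ with hy
    have hy0 : 0 < y := by positivity
    have hy1 : y ≤ 1 := (div_le_one hδ).2 b1
    have hy2 : 1 / 2 ≤ y := by
      rw [hy, div_le_div_iff₀ (by norm_num) hδ]
      rw [zpow_succ_two] at b2
      linarith
    have e1 : (2 : ℝ) ^ i / δ = (2 : ℝ) ^ (((i - i0).toNat : ℕ) : ℝ) * y := by
      have : (((i - i0).toNat : ℕ) : ℤ) = i - i0 := Int.toNat_of_nonneg (by omega)
      rw [Real.rpow_natCast, ← zpow_natCast, this, hy, zpow_sub₀ (by norm_num : (2 : ℝ) ≠ 0)]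
      field_simp
    have e2 : ((2 : ℝ) ^ i / δ) ^ (2 - d)
        = ((2 : ℝ) ^ (2 - d)) ^ (i - i0).toNat * y ^ (2 - d) := by
      rw [e1, Real.mul_rpow (by positivity) hy0.le, ← Real.rpow_mul (by norm_num),
        mul_comm (((i - i0).toNat : ℕ) : ℝ) (2 - d), Real.rpow_mul (by norm_num),
        Real.rpow_natCast]
    have e3 : y ^ (2 - d) ≤ 2 ^ d := by
      rcases le_total d 2 with hd2 | hd2
      · have h3 : y ^ (2 - d) ≤ 1 := Real.rpow_le_one hy0.le hy1 (by linarith)
        have h4 : (1 : ℝ) ≤ 2 ^ d := Real.one_le_rpow (by norm_num) hd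
        linarith
      · have h3 : y ^ (2 - d) ≤ (1 / 2 : ℝ) ^ (2 - d) :=
          Real.rpow_le_rpow_of_nonpos (by norm_num) hy2 (by linarith)
        have h4 : (1 / 2 : ℝ) ^ (2 - d) = 2 ^ (d - 2) := by
          rw [one_div, Real.inv_rpow (by norm_num), ← Real.rpow_neg (by norm_num)]
          congr 1
          ring
        have h5 : (2 : ℝ) ^ (d - 2) ≤ 2 ^ d :=
          Real.rpow_le_rpow_of_exponent_le (by norm_num) (by linarith)
        linarith
    rw [e2]
    have hr : (0 : ℝ) ≤ ((2 : ℝ) ^ (2 - d)) ^ (i - i0).toNat := by positivity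
    have hcc : (0 : ℝ) ≤ 983857645959579 / c * P.card := by positivity
    calc 983857645959579 / c * P.card * (((2 : ℝ) ^ (2 - d)) ^ (i - i0).toNat * y ^ (2 - d))
        ≤ 983857645959579 / c * P.card * (((2 : ℝ) ^ (2 - d)) ^ (i - i0).toNat * 2 ^ d) := by
          gcongr
      _ = _ := by ring
  have hre : ∑ i ∈ scales P, ((2 : ℝ) ^ (2 - d)) ^ (i - i0).toNat
      ≤ ∑ k ∈ Finset.range (J + 1), ((2 : ℝ) ^ (2 - d)) ^ k := by
    have hinj : Set.InjOn (fun i : ℤ => (i - i0).toNat) ↑(scales P) := by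
      intro i hi i' hi' h
      have h1 := hbd i hi
      have h2 := hbd i' hi'
      simp only at h
      omega
    rw [← Finset.sum_image (g := fun i : ℤ => (i - i0).toNat)
      (f := fun k : ℕ => ((2 : ℝ) ^ (2 - d)) ^ k) hinj]
    apply Finset.sum_le_sum_of_subset_of_nonneg
    · intro k hk
      obtain ⟨i, hi, rfl⟩ := Finset.mem_image.1 hk
      have h1 := hbd i hi
      rw [Finset.mem_range]
      omega
    · intro k _ _
      positivity
  have h0 : (numEdges P : ℝ) ≤ (edges P).card := by exact_mod_cast numEdges_le P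
  calc (numEdges P : ℝ) ≤ (edges P).card := h0
    _ ≤ _ := hsum
    _ ≤ ∑ i ∈ scales P, 983857645959579 / c * 2 ^ d * P.card *
        ((2 : ℝ) ^ (2 - d)) ^ (i - i0).toNat := Finset.sum_le_sum hterm
    _ = 983857645959579 / c * 2 ^ d * P.card *
        ∑ i ∈ scales P, ((2 : ℝ) ^ (2 - d)) ^ (i - i0).toNat := by rw [Finset.mul_sum]
    _ ≤ _ := by
      apply mul_le_mul_of_nonneg_left hre
      positivity

end Helper76.RNGP
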