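import Pool.Agent.helper76.RNGP.Spread

/-!
# Edges of relative neighbourhood graphs pack in a surface: the theorems
-/


namespace Helper76.RNGP

open scoped InnerProductSpace
open Helper5.RNG Helper5.RNGraph

open scoped Classical in
theorem final_weighted (P : Finset (EuclideanSpace ℝ (Fin 3))) :
    ∑ e ∈ (P ×ˢ P).filter (fun e => (relNbhd P).Adj e.1 e.2),
      (min (gap P e.1 e.2) (gap P e.2 e.1) / dist e.1 e.2) ^ 2 ≤ 7245075375 * P.card := by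
  have h : (P ×ˢ P).filter (fun e => (relNbhd P).Adj e.1 e.2) = edges P := by
    ext e
    rw [mem_edges, Finset.mem_filter, Finset.mem_product]
    exact ⟨fun h => h.2, fun h => ⟨⟨h.1, h.2.1⟩, h⟩⟩
  rw [h]
  exact weighted P

open scoped Classical in
lemma filter_le_near {P : Finset E} {p q : E} :
    (P.filter (fun z => dist p z ≤ dist p q)).card ≤ (near P (scale p q) p).card := by
  apply Finset.card_le_card
  intro z hz
  obtain ⟨h1, h2⟩ := Finset.mem_filter.1 hz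
  refine mem_near.2 ⟨h1, lt_of_le_of_lt h2 ((lt_scale p q).trans_le ?_)⟩
  exact zpow_le_zpow_right₀ (by norm_num) (by omega)

open scoped Classical in
theorem final_dim (P : Finset (EuclideanSpace ℝ (Fin 3))) (δ c d : ℝ) (J : ℕ) (hδ : 0 < δ)
    (hc : 0 < c) (hd : 0 ≤ d) (hsep : ∀ p ∈ P, ∀ q ∈ P, p ≠ q → δ ≤ dist p q)
    (hJ : ∀ p ∈ P, ∀ q ∈ P, dist p q < 2 ^ J * δ)
    (hdim : ∀ p q, (relNbhd P).Adj p q →
      c * (dist p q / δ) ^ d ≤ (P.filter (fun z => dist p z ≤ dist p q)).card) :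
    (numEdges P : ℝ) ≤ 1000000000000000 * (2 ^ d / c) * P.card *
      ∑ k ∈ Finset.range (J + 1), ((2 : ℝ) ^ (2 - d)) ^ k := by
  have h1 := dim_bound hδ hc hd hsep hJ (fun p q h => (hdim p q h).trans (by
    exact_mod_cast filter_le_near))
  refine h1.trans ?_
  have h2 : (0 : ℝ) ≤ ∑ k ∈ Finset.range (J + 1), ((2 : ℝ) ^ (2 - d)) ^ k := by positivity
  apply mul_le_mul_of_nonneg_right _ h2
  have h3 : (0 : ℝ) ≤ P.card := Nat.cast_nonneg _
  apply mul_le_mul_of_nonneg_right _ h3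
  have h4 : (0 : ℝ) ≤ 2 ^ d / c := by positivity
  calc 983857645959579 / c * 2 ^ d = 983857645959579 * (2 ^ d / c) := by ring
    _ ≤ 1000000000000000 * (2 ^ d / c) := by
      apply mul_le_mul_of_nonneg_right _ h4
      norm_num

lemma geo_le {r : ℝ} (h0 : 0 ≤ r) (h1 : r < 1) (n : ℕ) :
    ∑ k ∈ Finset.range n, r ^ k ≤ (1 - r)⁻¹ := by
  have h2 : 0 < 1 - r := by linarith
  have h3 : (∑ k ∈ Finset.range n, r ^ k) * (1 - r) = 1 - r ^ n := by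
    have := geom_sum_mul r n
    linarith
  have h4 : 0 ≤ r ^ n := pow_nonneg h0 n
  rw [inv_eq_one_div, le_div_iff₀ h2]
  linarith

lemma exists_pow_bound (P : Finset E) {δ : ℝ} (hδ : 0 < δ) :
    ∃ J : ℕ, ∀ p ∈ P, ∀ q ∈ P, dist p q < 2 ^ J * δ := by
  obtain ⟨J, hJ⟩ := pow_unbounded_of_one_lt (Metric.diam (P : Set E) / δ)
    (by norm_num : (1 : ℝ) < 2)
  refine ⟨J, fun p hp q hq => ?_⟩
  have h1 : dist p q ≤ Metric.diam (P : Set E) :=
    Metric.dist_le_diam_of_mem P.finite_toSet.isBounded hp hq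
  exact lt_of_le_of_lt h1 ((div_lt_iff₀ hδ).1 hJ)

lemma linear_step {N a b S r : ℝ} (ha : 0 ≤ a) (hb : 0 ≤ b) (h1 : N ≤ a * b * S)
    (h2 : S ≤ r) : N ≤ a * r * b := by
  have h3 : a * b * S ≤ a * b * r := mul_le_mul_of_nonneg_left h2 (mul_nonneg ha hb)
  have h4 : a * b * r = a * r * b := by ring
  linarith

open scoped Classical in
theorem final_linear (c d : ℝ) (hc : 0 < c) (hd : 2 < d) :
    ∃ C : ℝ, ∀ (P : Finset (EuclideanSpace ℝ (Fin 3))) (δ : ℝ), 0 < δ →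
      (∀ p ∈ P, ∀ q ∈ P, p ≠ q → δ ≤ dist p q) →
      (∀ p q, (relNbhd P).Adj p q →
        c * (dist p q / δ) ^ d ≤ (P.filter (fun z => dist p z ≤ dist p q)).card) →
      (numEdges P : ℝ) ≤ C * P.card := by
  have hr0 : (0 : ℝ) ≤ (2 : ℝ) ^ (2 - d) := Real.rpow_nonneg (by norm_num) _
  have hr1 : (2 : ℝ) ^ (2 - d) < 1 := Real.rpow_lt_one_of_one_lt_of_neg (by norm_num) (by linarith)
  have ha : (0 : ℝ) ≤ 1000000000000000 * (2 ^ d / c) :=
    mul_nonneg (by norm_num) (div_nonneg (Real.rpow_nonneg (by norm_num) _) hc.le)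
  refine ⟨1000000000000000 * (2 ^ d / c) * (1 - (2 : ℝ) ^ (2 - d))⁻¹,
    fun P δ hδ hsep hdim => ?_⟩
  obtain ⟨J, hJ⟩ := exists_pow_bound P hδ
  exact linear_step ha (Nat.cast_nonneg _)
    (final_dim P δ c d J hδ hc (by linarith) hsep hJ hdim) (geo_le hr0 hr1 _)

theorem final_transfer (γ K : ℝ) (hγ : 1 < γ) (he : ∀ m : ℕ, (e3 m : ℝ) ≤ K * (m : ℝ) ^ γ) :
    ∃ C : ℝ, ∀ (P : Finset (EuclideanSpace ℝ (Fin 3))) (δ Δ : ℝ), 0 < δ → 0 < Δ →
      (∀ p ∈ P, ∀ q ∈ P, p ≠ q → δ ≤ dist p q) → (∀ p ∈ P, ∀ q ∈ P, dist p q ≤ Δ * δ) →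
      (numEdges P : ℝ) ≤ C * ((P.card : ℝ) ^ (γ / (3 * γ - 2)) *
        Δ ^ (6 * (γ - 1) / (3 * γ - 2))) := by
  apply spread_bound hγ (K := max K 1) (lt_of_lt_of_le one_pos (le_max_right _ _))
  intro m
  refine (he m).trans ?_
  apply mul_le_mul_of_nonneg_right (le_max_left _ _)
  positivity

theorem final_spread :
    ∃ C : ℝ, ∀ (P : Finset (EuclideanSpace ℝ (Fin 3))) (δ Δ : ℝ), 0 < δ → 0 < Δ →
      (∀ p ∈ P, ∀ q ∈ P, p ≠ q → δ ≤ dist p q) → (∀ p ∈ P, ∀ q ∈ P, dist p q ≤ Δ * δ) →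
      (numEdges P : ℝ) ≤ C * ((P.card : ℝ) ^ ((3 : ℝ) / 5) * Δ ^ ((6 : ℝ) / 5)) := by
  obtain ⟨C, hC⟩ := final_transfer (3 / 2) 637875 (by norm_num) e3_half
  refine ⟨C, fun P δ Δ hδ hΔ hsep hdiam => ?_⟩
  have h := hC P δ Δ hδ hΔ hsep hdiam
  have e1 : (3 : ℝ) / 2 / (3 * (3 / 2) - 2) = 3 / 5 := by norm_num
  have e2 : (6 : ℝ) * (3 / 2 - 1) / (3 * (3 / 2) - 2) = 6 / 5 := by norm_num
  rw [e1, e2] at h
  exact h

end Helper76.RNGP
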