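import Pool.Agent.helper5.RNG.Final

/-!
# Edges of relative neighbourhood graphs pack in a surface: geometry

For an edge `(a, b)` put `x = a + b`. Two edges between the same two small cells satisfy
`|x' - x|² ≥ |a' - a|² + |b' - b|²` and `|2 ⟪b - a, x' - x⟫| ≤ |x' - x|²`.
-/

namespace Helper76.RNGP

open scoped InnerProductSpace
open Helper5.RNG Helper5.RNGraph

lemma norm3_sq (x : E) : ‖x‖ ^ 2 = x 0 ^ 2 + x 1 ^ 2 + x 2 ^ 2 := by
  have h := dist3_sq x 0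
  rw [dist_zero_right] at h
  rw [h]
  simp

lemma norm_k (x : E) (k : Fin 3) : ‖x‖ ^ 2 = x k ^ 2 + x (k + 1) ^ 2 + x (k + 2) ^ 2 := by
  rw [norm3_sq]
  fin_cases k
  · rfl
  · show _ = x 1 ^ 2 + x 2 ^ 2 + x 0 ^ 2
    ring
  · show _ = x 2 ^ 2 + x 0 ^ 2 + x 1 ^ 2
    ring

lemma inner_k (x y : E) (k : Fin 3) :
    ⟪x, y⟫_ℝ = x k * y k + x (k + 1) * y (k + 1) + x (k + 2) * y (k + 2) := by
  rw [inner3]
  fin_cases k
  · rfl
  · show _ = x 1 * y 1 + x 2 * y 2 + x 0 * y 0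
    ring
  · show _ = x 2 * y 2 + x 0 * y 0 + x 1 * y 1
    ring

/-- The two inequalities for a pair of edges. -/
lemma pair_geom {P : Finset E} {a b a' b' : E} (h : (relNbhd P).Adj a b)
    (h' : (relNbhd P).Adj a' b') (h1 : dist a a' < dist a b) (h2 : dist b b' < dist a b)
    (h3 : dist a a' < dist a' b') (h4 : dist b b' < dist a' b') :
    dist a a' ^ 2 + dist b b' ^ 2 ≤ ‖(a' + b') - (a + b)‖ ^ 2 ∧
      |2 * ⟪b - a, (a' + b') - (a + b)⟫_ℝ| ≤ ‖(a' + b') - (a + b)‖ ^ 2 := by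
  have e1 : dist a b ≤ dist a b' := RNG_near h h'.2.1 h2
  have e2 : dist b a ≤ dist b a' := RNG_near h.symm h'.1 (by rw [dist_comm b a]; exact h1)
  have e3 : dist a' b' ≤ dist a' b := RNG_near h' h.2.1 (by rw [dist_comm b' b]; exact h4)
  have e4 : dist b' a' ≤ dist b' a := RNG_near h'.symm h.1 (by
    rw [dist_comm a' a, dist_comm b' a']; exact h3)
  have f1 := pow_le_pow_left₀ dist_nonneg e1 2
  have f2 := pow_le_pow_left₀ dist_nonneg e2 2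
  have f3 := pow_le_pow_left₀ dist_nonneg e3 2
  have f4 := pow_le_pow_left₀ dist_nonneg e4 2
  rw [dist3_sq, dist3_sq] at f1 f2 f3 f4
  rw [dist3_sq, dist3_sq, norm3_sq, inner3]
  simp only [PiLp.sub_apply, PiLp.add_apply]
  refine ⟨by nlinarith only [f1, f2, f3, f4], abs_le.2 ⟨?_, ?_⟩⟩
  · nlinarith only [f1, f2, f3, f4, sq_nonneg (a' 0 - a 0), sq_nonneg (a' 1 - a 1),
      sq_nonneg (a' 2 - a 2), sq_nonneg (b' 0 - b 0), sq_nonneg (b' 1 - b 1),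
      sq_nonneg (b' 2 - b 2)]
  · nlinarith only [f1, f2, f3, f4, sq_nonneg (a' 0 - a 0), sq_nonneg (a' 1 - a 1),
      sq_nonneg (a' 2 - a 2), sq_nonneg (b' 0 - b 0), sq_nonneg (b' 1 - b 1),
      sq_nonneg (b' 2 - b 2)]

/-- A vector nearly orthogonal to `N` is seen in the two coordinates other than the largest
coordinate of `N`. -/
lemma proj_geom {N ξ : E} {k : Fin 3} (hk : ∀ i, |N i| ≤ |N k|)
    (h1 : |2 * ⟪N, ξ⟫_ℝ| ≤ ‖ξ‖ ^ 2) (h2 : 8 * ‖ξ‖ ≤ ‖N‖) :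
    ‖ξ‖ ≤ 4 * max |ξ (k + 1)| |ξ (k + 2)| := by
  by_contra hcon
  push Not at hcon
  have c1 : 4 * |ξ (k + 1)| < ‖ξ‖ :=
    lt_of_le_of_lt (by gcongr; exact le_max_left _ _) hcon
  have c2 : 4 * |ξ (k + 2)| < ‖ξ‖ :=
    lt_of_le_of_lt (by gcongr; exact le_max_right _ _) hcon
  have hs : 0 < ‖ξ‖ := lt_of_le_of_lt (by positivity) c1
  have hN2 : ‖N‖ ≤ 2 * |N k| := by
    apply le_of_sq_le_sq _ (by positivity)
    have n1 := hk (k + 1)
    have n2 := hk (k + 2)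
    have m1 : N (k + 1) ^ 2 ≤ N k ^ 2 := sq_le_sq.2 n1
    have m2 : N (k + 2) ^ 2 ≤ N k ^ 2 := sq_le_sq.2 n2
    rw [norm_k N k, mul_pow, sq_abs]
    nlinarith [sq_nonneg (N k)]
  have hNk : 0 < |N k| := by
    have : 0 < ‖N‖ := by linarith
    linarith
  have hin : |⟪N, ξ⟫_ℝ| ≤ |N k| * ‖ξ‖ * (1 / 8) := by
    rw [abs_mul, abs_of_pos (by norm_num : (0 : ℝ) < 2)] at h1
    nlinarith
  have hk1 : |N (k + 1) * ξ (k + 1)| ≤ |N k| * ‖ξ‖ * (1 / 4) := by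
    rw [abs_mul]
    have := hk (k + 1)
    nlinarith [abs_nonneg (ξ (k + 1)), abs_nonneg (N (k + 1))]
  have hk2 : |N (k + 2) * ξ (k + 2)| ≤ |N k| * ‖ξ‖ * (1 / 4) := by
    rw [abs_mul]
    have := hk (k + 2)
    nlinarith [abs_nonneg (ξ (k + 2)), abs_nonneg (N (k + 2))]
  have hkk : |N k * ξ k| ≤ |N k| * ‖ξ‖ * (5 / 8) := by
    have e : N k * ξ k = ⟪N, ξ⟫_ℝ - N (k + 1) * ξ (k + 1) - N (k + 2) * ξ (k + 2) := by
      rw [inner_k N ξ k]; ring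
    rw [e]
    have t1 := abs_sub (⟪N, ξ⟫_ℝ - N (k + 1) * ξ (k + 1)) (N (k + 2) * ξ (k + 2))
    have t2 := abs_sub (⟪N, ξ⟫_ℝ) (N (k + 1) * ξ (k + 1))
    linarith
  have hξk : |ξ k| ≤ ‖ξ‖ * (5 / 8) := by
    rw [abs_mul, mul_assoc] at hkk
    exact le_of_mul_le_mul_left hkk hNk
  have q0 : ξ k ^ 2 ≤ (‖ξ‖ * (5 / 8)) ^ 2 := by
    rw [← sq_abs]
    exact pow_le_pow_left₀ (abs_nonneg _) hξk 2
  have q1 : ξ (k + 1) ^ 2 ≤ (‖ξ‖ / 4) ^ 2 := by
    rw [← sq_abs]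
    exact pow_le_pow_left₀ (abs_nonneg _) (by linarith) 2
  have q2 : ξ (k + 2) ^ 2 ≤ (‖ξ‖ / 4) ^ 2 := by
    rw [← sq_abs]
    exact pow_le_pow_left₀ (abs_nonneg _) (by linarith) 2
  have := norm_k ξ k
  nlinarith [pow_pos hs 2]

open MeasureTheory in
/-- Packing of squares in the plane. -/
lemma packing {ι : Type*} (F : Finset ι) (y : ι → (Fin 2 → ℝ)) (ω : ι → ℝ) {c : Fin 2 → ℝ}
    {R : ℝ} (hω : ∀ e ∈ F, 0 ≤ ω e)
    (hsep : ∀ e ∈ F, ∀ e' ∈ F, e ≠ e' → ω e + ω e' ≤ dist (y e) (y e'))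
    (hR : ∀ e ∈ F, dist (y e) c + ω e ≤ R) : ∑ e ∈ F, ω e ^ 2 ≤ R ^ 2 := by
  classical
  rcases F.eq_empty_or_nonempty with rfl | ⟨e0, he0⟩
  · simp; positivity
  have hR0 : 0 ≤ R := by
    have h1 := hR e0 he0
    have h2 := hω e0 he0
    have h3 : 0 ≤ dist (y e0) c := dist_nonneg
    linarith
  rcases hR0.eq_or_lt with h0 | hRpos
  · have hz : ∀ e ∈ F, ω e = 0 := by
      intro e he
      have h1 := hR e he
      have h2 := hω e he
      have h3 : 0 ≤ dist (y e) c := dist_nonneg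
      linarith
    rw [Finset.sum_eq_zero (fun e he => by rw [hz e he]; ring)]
    positivity
  have hvol : ∀ e ∈ F, ENNReal.ofReal ((2 * ω e) ^ 2) ≤ volume (Metric.ball (y e) (ω e)) := by
    intro e he
    rcases (hω e he).eq_or_lt with h | h
    · rw [← h]; simp
    · rw [Real.volume_pi_ball _ h]; simp
  have hdisj : Set.PairwiseDisjoint (↑F : Set ι) (fun e => Metric.ball (y e) (ω e)) := by
    intro e he e' he' hne
    exact Metric.ball_disjoint_ball (hsep e he e' he' hne)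
  have hun : volume (⋃ e ∈ F, Metric.ball (y e) (ω e))
      = ∑ e ∈ F, volume (Metric.ball (y e) (ω e)) :=
    measure_biUnion_finset hdisj (fun e _ => measurableSet_ball)
  have hsub : (⋃ e ∈ F, Metric.ball (y e) (ω e)) ⊆ Metric.ball c R := by
    apply Set.iUnion₂_subset
    intro e he
    apply Metric.ball_subset_ball'
    have := hR e he
    linarith
  have h1 : ∑ e ∈ F, ENNReal.ofReal ((2 * ω e) ^ 2) ≤ ENNReal.ofReal ((2 * R) ^ 2) := by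
    calc _ ≤ ∑ e ∈ F, volume (Metric.ball (y e) (ω e)) := Finset.sum_le_sum hvol
      _ = volume (⋃ e ∈ F, Metric.ball (y e) (ω e)) := hun.symm
      _ ≤ volume (Metric.ball c R) := measure_mono hsub
      _ = _ := by rw [Real.volume_pi_ball _ hRpos]; simp
  rw [← ENNReal.ofReal_sum_of_nonneg (fun e _ => by positivity),
    ENNReal.ofReal_le_ofReal_iff (by positivity)] at h1
  have h2 : ∑ e ∈ F, (2 * ω e) ^ 2 = 4 * ∑ e ∈ F, ω e ^ 2 := by
    rw [Finset.mul_sum]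
    exact Finset.sum_congr rfl (fun e _ => by ring)
  rw [h2] at h1
  nlinarith

end Helper76.RNGP
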