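import Pool.Agent.helper76.RNGP.Dim

/-!
# Relative neighbourhood graphs in 3-space: an elementary bound with exponent `3 / 2`
-/

namespace Helper76.RNGP

open scoped InnerProductSpace
open Helper5.RNG Helper5.RNGraph

/-- The sum of the squares of the degrees. -/
lemma sum_sq_deg {R B : Finset E} {F : Finset (E × E)} (hF : Mutual R B F) :
    ∑ r ∈ R, (F.filter (fun e => e.2 = r)).card ^ 2 ≤ 5 * F.card + 2 * B.card ^ 2 := by
  classical
  have hsnd : ∀ e ∈ F, e.2 ∈ R := fun e he => (mem_Nr.1 (hF.snd e he)).1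
  -- the neighbourhood of one centre
  set N : E → Finset E := fun b => R.filter (fun r => (b, r) ∈ F) with hN
  have hone : ∀ b ∈ B, (F.filter (fun e => e.2 ∈ N b)).card ≤ 5 * (N b).card + 2 * B.card := by
    intro b _
    rcases (N b).eq_empty_or_nonempty with h0 | ⟨r0, hr0⟩
    · rw [h0]
      simp
    have hr0F : (b, r0) ∈ F := (Finset.mem_filter.1 hr0).2
    obtain ⟨ψ, γ, hψ, hs⟩ := surface (S := {x | dist x b = dist r0 b}) (Or.inr ⟨b, _, rfl⟩)
    apply card_mutual (R := N b) (B := B) (ψ := ψ) (γ := γ) _ hψ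
    · intro r hr
      apply hs
      have hrF : (b, r) ∈ F := (Finset.mem_filter.1 hr).2
      have n1 : r ∈ Nr R b := hF.snd (b, r) hrF
      have n2 : r0 ∈ Nr R b := hF.snd (b, r0) hr0F
      have n3 : dist b r = dist b r0 := Nr_dist_eq n1 n2
      show dist r b = dist r0 b
      rw [dist_comm r b, dist_comm r0 b]
      exact n3
    · constructor
      · intro e he
        exact hF.fst e (Finset.mem_filter.1 he).1
      · intro e he
        obtain ⟨he1, he2⟩ := Finset.mem_filter.1 he
        rw [mem_Nr]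
        refine ⟨he2, fun r' hr' => ?_⟩
        exact (mem_Nr.1 (hF.snd e he1)).2 r' (Finset.mem_filter.1 hr').1
      · intro e he b' hb'
        exact hF.near e (Finset.mem_filter.1 he).1 b' hb'
  have hsum := Finset.sum_le_sum hone
  -- left side
  have hcol : ∀ r ∈ R, (B.filter (fun b => (b, r) ∈ F)).card = (F.filter (fun e => e.2 = r)).card := by
    intro r _
    rw [← Finset.card_image_of_injective (B.filter (fun b => (b, r) ∈ F))
      (f := fun b => (b, r)) (fun a b h => (Prod.mk.inj h).1)]
    congr 1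
    ext e
    rw [Finset.mem_image, Finset.mem_filter]
    constructor
    · rintro ⟨b, hb, rfl⟩
      exact ⟨(Finset.mem_filter.1 hb).2, rfl⟩
    · rintro ⟨he, rfl⟩
      exact ⟨e.1, Finset.mem_filter.2 ⟨hF.fst e he, he⟩, rfl⟩
  have hleft : ∑ b ∈ B, (F.filter (fun e => e.2 ∈ N b)).card
      = ∑ r ∈ R, (F.filter (fun e => e.2 = r)).card ^ 2 := by
    have e1 : ∑ b ∈ B, (F.filter (fun e => e.2 ∈ N b)).card
        = ∑ e ∈ F, (B.filter (fun b => (b, e.2) ∈ F)).card := by
      simp only [Finset.card_filter]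
      rw [Finset.sum_comm]
      refine Finset.sum_congr rfl fun e he => Finset.sum_congr rfl fun b _ => ?_
      have : e.2 ∈ N b ↔ (b, e.2) ∈ F := by
        rw [hN]
        simp only [Finset.mem_filter]
        exact ⟨fun h => h.2, fun h => ⟨hsnd e he, h⟩⟩
      simp only [this]
    rw [e1, ← Finset.sum_fiberwise_of_maps_to hsnd]
    refine Finset.sum_congr rfl fun r hr => ?_
    rw [Finset.sum_congr rfl (g := fun _ => (F.filter (fun e => e.2 = r)).card)
      (fun e he => by rw [(Finset.mem_filter.1 he).2]; exact hcol r hr)]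
    rw [Finset.sum_const, smul_eq_mul, sq]
  have hright : ∑ b ∈ B, (5 * (N b).card + 2 * B.card) = 5 * F.card + 2 * B.card ^ 2 := by
    rw [Finset.sum_add_distrib, ← Finset.mul_sum, Finset.sum_const, smul_eq_mul]
    have e2 : ∑ b ∈ B, (N b).card = F.card := by
      rw [Finset.card_eq_sum_card_fiberwise (f := fun e : E × E => e.1) (s := F) (t := B)
        (fun e he => hF.fst e he)]
      refine Finset.sum_congr rfl fun b _ => ?_
      rw [← Finset.card_image_of_injective (N b) (f := fun r => (b, r))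
        (fun x y h => (Prod.mk.inj h).2)]
      congr 1
      ext e
      rw [Finset.mem_image, Finset.mem_filter]
      constructor
      · rintro ⟨r, hr, rfl⟩
        exact ⟨(Finset.mem_filter.1 hr).2, rfl⟩
      · rintro ⟨he, rfl⟩
        exact ⟨e.2, Finset.mem_filter.2 ⟨hsnd e he, he⟩, rfl⟩
    rw [e2]
    ring
  rw [hleft, hright] at hsum
  exact hsum

lemma mutual_half {R B : Finset E} {F : Finset (E × E)} (hF : Mutual R B F) :
    (F.card : ℝ) ≤ 5 * R.card + 2 * B.card * Real.sqrt R.card := by
  classical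
  have hsnd : ∀ e ∈ F, e.2 ∈ R := fun e he => (mem_Nr.1 (hF.snd e he)).1
  have h1 : (∑ r ∈ R, ((F.filter (fun e => e.2 = r)).card : ℝ) ^ 2)
      ≤ 5 * F.card + 2 * (B.card : ℝ) ^ 2 := by exact_mod_cast sum_sq_deg hF
  have h2 : (F.card : ℝ) = ∑ r ∈ R, ((F.filter (fun e => e.2 = r)).card : ℝ) := by
    rw [Finset.card_eq_sum_card_fiberwise (f := fun e : E × E => e.2) (s := F) (t := R) hsnd]
    push_cast
    rfl
  have h3 : (F.card : ℝ) ^ 2 ≤ R.card * (5 * F.card + 2 * (B.card : ℝ) ^ 2) := by
    have h4 := sq_sum_le_card_mul_sum_sq (s := R)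
      (f := fun r => ((F.filter (fun e => e.2 = r)).card : ℝ))
    rw [← h2] at h4
    exact h4.trans (mul_le_mul_of_nonneg_left h1 (Nat.cast_nonneg _))
  set s := Real.sqrt R.card with hs
  have hs0 : 0 ≤ s := Real.sqrt_nonneg _
  have hs2 : s ^ 2 = R.card := Real.sq_sqrt (Nat.cast_nonneg _)
  rw [← hs2] at h3 ⊢
  by_contra hcon
  push Not at hcon
  have hB : (0 : ℝ) ≤ B.card := Nat.cast_nonneg _
  set x : ℝ := ((F.card : ℕ) : ℝ) with hx
  set b : ℝ := ((B.card : ℕ) : ℝ) with hb
  have hbs : 0 ≤ b * s := mul_nonneg hB hs0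
  have hx0 : 0 < x := by nlinarith [sq_nonneg s]
  have h5 : 2 * b * s < x - 5 * s ^ 2 := by linarith
  have h6 : 2 * b * s ≤ x := by nlinarith [sq_nonneg s]
  have h7 : x * (2 * b * s) < x * (x - 5 * s ^ 2) := mul_lt_mul_of_pos_left h5 hx0
  have h8 : (2 * b * s) * (2 * b * s) ≤ x * (2 * b * s) :=
    mul_le_mul_of_nonneg_right h6 (by linarith)
  nlinarith [sq_nonneg (b * s)]

/-- The elementary bound. -/
theorem numEdges_half (P : Finset E) :
    (numEdges P : ℝ) ≤ 637875 * (P.card : ℝ) ^ ((3 : ℝ) / 2) := by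
  classical
  set T := edges P with hT
  have hadj : ∀ e ∈ T, (relNbhd P).Adj e.1 e.2 := fun e he => mem_edges.1 he
  have h1 : T.card = ∑ k ∈ T.image key, (T.filter (fun e => key e = k)).card :=
    Finset.card_eq_sum_card_image key T
  set s := Real.sqrt P.card with hs
  have hs0 : 0 ≤ s := Real.sqrt_nonneg _
  have h2 : ∀ k ∈ T.image key, ((T.filter (fun e => key e = k)).card : ℝ) ≤
      5 * ((T.filter (fun e => key e = k)).image (fun e => e.2)).card
        + 2 * ((T.filter (fun e => key e = k)).image (fun e => e.1)).card * s := by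
    intro k hk
    have hm := mutual_half (mutual_fiber P Set.univ k (T.filter (fun e => key e = k))
      (fun e he => ⟨(Finset.mem_filter.1 he).1, (Finset.mem_filter.1 he).2⟩))
    refine hm.trans ?_
    have h3 : Real.sqrt (((T.filter (fun e => key e = k)).image (fun e => e.2)).card : ℝ) ≤ s := by
      apply Real.sqrt_le_sqrt
      have : ((T.filter (fun e => key e = k)).image (fun e => e.2)).card ≤ P.card := by
        apply Finset.card_le_card
        intro r hr
        obtain ⟨e, he, rfl⟩ := Finset.mem_image.1 hr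
        exact (hadj e (Finset.mem_filter.1 he).1).2.1
      exact_mod_cast this
    gcongr
  have h3 : ∑ k ∈ T.image key, ((T.filter (fun e => key e = k)).image (fun e => e.2)).card
      = ∑ r ∈ T.image (fun e => e.2), ((T.filter (fun e => e.2 = r)).image key).card := by
    simp only [Finset.card_eq_sum_ones]
    rw [Finset.sum_comm']
    intro k r
    simp only [Finset.mem_image, Finset.mem_filter]
    constructor
    · rintro ⟨⟨e, he, rfl⟩, ⟨e', ⟨he', hk⟩, rfl⟩⟩
      exact ⟨⟨e', ⟨he', rfl⟩, hk⟩, ⟨e', he', rfl⟩⟩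
    · rintro ⟨⟨e', ⟨he', rfl⟩, rfl⟩, _⟩
      exact ⟨⟨e', he', rfl⟩, ⟨e', ⟨he', rfl⟩, rfl⟩⟩
  have h4 : ∑ k ∈ T.image key, ((T.filter (fun e => key e = k)).image (fun e => e.1)).card
      = ∑ r ∈ T.image (fun e => e.1), ((T.filter (fun e => e.1 = r)).image key).card := by
    simp only [Finset.card_eq_sum_ones]
    rw [Finset.sum_comm']
    intro k r
    simp only [Finset.mem_image, Finset.mem_filter]
    constructor
    · rintro ⟨⟨e, he, rfl⟩, ⟨e', ⟨he', hk⟩, rfl⟩⟩
      exact ⟨⟨e', ⟨he', rfl⟩, hk⟩, ⟨e', he', rfl⟩⟩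
    · rintro ⟨⟨e', ⟨he', rfl⟩, rfl⟩, _⟩
      exact ⟨⟨e', he', rfl⟩, ⟨e', ⟨he', rfl⟩, rfl⟩⟩
  have h5 : ∑ r ∈ T.image (fun e => e.2), ((T.filter (fun e => e.2 = r)).image key).card
      ≤ P.card * (125 * 729) := by
    calc _ ≤ ∑ r ∈ T.image (fun e => e.2), 125 * 729 := by
          apply Finset.sum_le_sum
          intro r hr
          apply keys_card_snd P r
          · intro e he; exact hadj e (Finset.mem_filter.1 he).1
          · intro e he; exact (Finset.mem_filter.1 he).2
      _ = (T.image (fun e => e.2)).card * (125 * 729) := by rw [Finset.sum_const, smul_eq_mul]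
      _ ≤ _ := by
          apply Nat.mul_le_mul_right
          apply Finset.card_le_card
          intro r hr
          obtain ⟨e, he, rfl⟩ := Finset.mem_image.1 hr
          exact (hadj e he).2.1
  have h6 : ∑ r ∈ T.image (fun e => e.1), ((T.filter (fun e => e.1 = r)).image key).card
      ≤ P.card * (125 * 729) := by
    calc _ ≤ ∑ r ∈ T.image (fun e => e.1), 125 * 729 := by
          apply Finset.sum_le_sum
          intro r hr
          apply keys_card_fst P r
          · intro e he; exact hadj e (Finset.mem_filter.1 he).1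
          · intro e he; exact (Finset.mem_filter.1 he).2
      _ = (T.image (fun e => e.1)).card * (125 * 729) := by rw [Finset.sum_const, smul_eq_mul]
      _ ≤ _ := by
          apply Nat.mul_le_mul_right
          apply Finset.card_le_card
          intro r hr
          obtain ⟨e, he, rfl⟩ := Finset.mem_image.1 hr
          exact (hadj e he).1
  rw [← h3] at h5
  rw [← h4] at h6
  have h5' : (∑ k ∈ T.image key, (((T.filter (fun e => key e = k)).image (fun e => e.2)).card : ℝ))
      ≤ P.card * 91125 := by exact_mod_cast h5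
  have h6' : (∑ k ∈ T.image key, (((T.filter (fun e => key e = k)).image (fun e => e.1)).card : ℝ))
      ≤ P.card * 91125 := by exact_mod_cast h6
  have h7 : (T.card : ℝ) ≤ 5 * (P.card * 91125) + 2 * (P.card * 91125) * s := by
    calc (T.card : ℝ) = ∑ k ∈ T.image key, ((T.filter (fun e => key e = k)).card : ℝ) := by
          rw [h1]; push_cast; rfl
      _ ≤ ∑ k ∈ T.image key, (5 * (((T.filter (fun e => key e = k)).image (fun e => e.2)).card : ℝ)
          + 2 * ((T.filter (fun e => key e = k)).image (fun e => e.1)).card * s) :=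
          Finset.sum_le_sum h2
      _ = 5 * (∑ k ∈ T.image key,
            (((T.filter (fun e => key e = k)).image (fun e => e.2)).card : ℝ))
          + 2 * (∑ k ∈ T.image key,
            (((T.filter (fun e => key e = k)).image (fun e => e.1)).card : ℝ)) * s := by
          rw [Finset.sum_add_distrib, Finset.mul_sum, Finset.mul_sum, Finset.sum_mul]
      _ ≤ _ := by gcongr
  have h8 : (numEdges P : ℝ) ≤ T.card := by exact_mod_cast numEdges_le P
  rcases Nat.eq_zero_or_pos P.card with hz | hpos
  · rw [hz] at h7 ⊢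
    simp only [Nat.cast_zero, zero_mul, mul_zero, add_zero] at h7
    have : (0 : ℝ) ≤ 637875 * (0 : ℝ) ^ ((3 : ℝ) / 2) := by positivity
    push_cast
    linarith
  · have hn : (1 : ℝ) ≤ P.card := by exact_mod_cast hpos
    have hs1 : 1 ≤ s := by
      rw [hs]
      exact Real.one_le_sqrt.2 hn
    have e1 : (P.card : ℝ) ^ ((3 : ℝ) / 2) = P.card * s := by
      rw [hs, Real.sqrt_eq_rpow, show (3 : ℝ) / 2 = 1 + 1 / 2 by norm_num,
        Real.rpow_add (by linarith), Real.rpow_one]
    rw [e1]
    nlinarith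

/-- The maximum is attained. -/
lemma exists_e3 (n : ℕ) : e3 n = 0 ∨ ∃ P : Finset E, P.card = n ∧ numEdges P = e3 n := by
  rcases Set.eq_empty_or_nonempty {m | ∃ P : Finset E, P.card = n ∧ numEdges P = m} with h | h
  · left
    unfold e3
    rw [h]
    simp
  · right
    have hb : BddAbove {m | ∃ P : Finset E, P.card = n ∧ numEdges P = m} := by
      refine ⟨n * n, ?_⟩
      rintro m ⟨P, hP, rfl⟩
      have := numEdges_le_sq P
      rwa [hP] at this
    exact Nat.sSup_mem h hb

theorem e3_half (n : ℕ) : (e3 n : ℝ) ≤ 637875 * (n : ℝ) ^ ((3 : ℝ) / 2) := by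
  rcases exists_e3 n with h | ⟨P, hP, h⟩
  · rw [h]
    push_cast
    positivity
  · rw [← h, ← hP]
    exact numEdges_half P

end Helper76.RNGP
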