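import Pool.Agent.helper76.RNGP.Geom

/-!
# Edges of relative neighbourhood graphs pack in a surface: fine cells
-/

namespace Helper76.RNGP

open scoped InnerProductSpace
open Helper5.RNG Helper5.RNGraph

lemma exists_big (N : E) : ∃ k : Fin 3, ∀ i, |N i| ≤ |N k| := by
  obtain ⟨k, hk⟩ := Finite.exists_max (fun i : Fin 3 => |N i|)
  exact ⟨k, hk⟩

/-- The index of a largest coordinate. -/
noncomputable def big (N : E) : Fin 3 := (exists_big N).choose

lemma big_spec (N : E) (i : Fin 3) : |N i| ≤ |N (big N)| := (exists_big N).choose_spec i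

/-- The key of a pair: scale, fine cells of the two points, index of the largest coordinate. -/
noncomputable def fkey (e : E × E) : ℤ × (Fin 3 → ℤ) × (Fin 3 → ℤ) × Fin 3 :=
  (scale e.1 e.2, cell (scale e.1 e.2 - 4) e.1, cell (scale e.1 e.2 - 4) e.2, big (e.2 - e.1))

/-- The scale and the fine cell of the first point. -/
noncomputable def fone (e : E × E) : ℤ × (Fin 3 → ℤ) :=
  (scale e.1 e.2, cell (scale e.1 e.2 - 4) e.1)

/-- Ordered pairs of adjacent points. -/
noncomputable def edges (P : Finset E) : Finset (E × E) := pairs P Set.univ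

lemma mem_edges {P : Finset E} {e : E × E} : e ∈ edges P ↔ (relNbhd P).Adj e.1 e.2 := by
  unfold edges
  rw [mem_pairs]
  simp

lemma fkey_eq {e e' : E × E} (h : fkey e = fkey e') :
    scale e.1 e.2 = scale e'.1 e'.2 ∧
      cell (scale e.1 e.2 - 4) e.1 = cell (scale e.1 e.2 - 4) e'.1 ∧
      cell (scale e.1 e.2 - 4) e.2 = cell (scale e.1 e.2 - 4) e'.2 ∧
      big (e.2 - e.1) = big (e'.2 - e'.1) := by
  unfold fkey at h
  simp only [Prod.mk.injEq] at h
  refine ⟨h.1, ?_, ?_, h.2.2.2⟩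
  · rw [h.2.1, h.1]
  · rw [h.2.2.1, h.1]

/-- The two points of the plane attached to a pair. -/
noncomputable def plane (k : Fin 3) (e : E × E) : Fin 2 → ℝ :=
  ![(e.1 + e.2) (k + 1), (e.1 + e.2) (k + 2)]

lemma dist_plane_ge (k : Fin 3) (e e' : E × E) :
    max |((e'.1 + e'.2) - (e.1 + e.2)) (k + 1)| |((e'.1 + e'.2) - (e.1 + e.2)) (k + 2)|
      ≤ dist (plane k e) (plane k e') := by
  apply max_le
  · have := dist_le_pi_dist (plane k e) (plane k e') 0
    rw [Real.dist_eq, abs_sub_comm] at this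
    exact this
  · have := dist_le_pi_dist (plane k e) (plane k e') 1
    rw [Real.dist_eq, abs_sub_comm] at this
    exact this

lemma abs_coord_le_norm (x : E) (j : Fin 3) : |x j| ≤ ‖x‖ := by
  have := abs_coord_le (0 : E) x j
  rw [dist_zero_left] at this
  simpa using this

lemma dist_plane_le (k : Fin 3) (e e' : E × E) :
    dist (plane k e) (plane k e') ≤ ‖(e'.1 + e'.2) - (e.1 + e.2)‖ := by
  rw [dist_pi_le_iff (norm_nonneg _)]
  intro j
  rw [Real.dist_eq, abs_sub_comm]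
  fin_cases j
  · exact abs_coord_le_norm ((e'.1 + e'.2) - (e.1 + e.2)) (k + 1)
  · exact abs_coord_le_norm ((e'.1 + e'.2) - (e.1 + e.2)) (k + 2)

lemma zpow_sub_four (i : ℤ) : (2 : ℝ) ^ (i - 4) = (2 : ℝ) ^ i / 16 := by
  rw [zpow_sub₀ (by norm_num : (2 : ℝ) ≠ 0)]
  norm_num

/-- Facts for two edges with the same fine key. -/
lemma same_key {P : Finset E} {e e' : E × E} (h : (relNbhd P).Adj e.1 e.2)
    (h' : (relNbhd P).Adj e'.1 e'.2) (hk : fkey e = fkey e') :
    dist e.1 e'.1 < (2 : ℝ) ^ scale e.1 e.2 / 16 ∧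
    dist e.2 e'.2 < (2 : ℝ) ^ scale e.1 e.2 / 16 ∧
    dist e.1 e'.1 ^ 2 + dist e.2 e'.2 ^ 2 ≤ ‖(e'.1 + e'.2) - (e.1 + e.2)‖ ^ 2 ∧
    |2 * ⟪e.2 - e.1, (e'.1 + e'.2) - (e.1 + e.2)⟫_ℝ| ≤ ‖(e'.1 + e'.2) - (e.1 + e.2)‖ ^ 2 ∧
    ‖(e'.1 + e'.2) - (e.1 + e.2)‖ ≤ (2 : ℝ) ^ scale e.1 e.2 / 8 := by
  obtain ⟨k1, k2, k3, -⟩ := fkey_eq hk
  have c1 := cell_close k2
  have c2 := cell_close k3
  rw [zpow_sub_four] at c1 c2
  have s1 := scale_le h.2.2.1
  have s2 := scale_le h'.2.2.1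
  rw [← k1] at s2
  have hp : (0 : ℝ) < (2 : ℝ) ^ scale e.1 e.2 := by positivity
  obtain ⟨g1, g2⟩ := pair_geom h h' (by linarith) (by linarith) (by linarith) (by linarith)
  refine ⟨c1, c2, g1, g2, ?_⟩
  have e1 : (e'.1 + e'.2) - (e.1 + e.2) = (e'.1 - e.1) + (e'.2 - e.2) := by abel
  rw [e1]
  have n1 := norm_add_le (e'.1 - e.1) (e'.2 - e.2)
  rw [dist_comm, dist_eq_norm] at c1 c2
  linarith

/-- The weighted packing inequality for one fine key. -/
lemma fiber_weight {P : Finset E} (F : Finset (E × E)) (hadj : ∀ e ∈ F, (relNbhd P).Adj e.1 e.2)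
    (hkey : ∀ e ∈ F, ∀ e' ∈ F, fkey e = fkey e') (ω : E × E → ℝ) (h0 : ∀ e ∈ F, 0 ≤ ω e)
    (h1 : ∀ e ∈ F, ∀ e' ∈ F, e.1 ≠ e'.1 → ω e ≤ dist e.1 e'.1)
    (h2 : ∀ e ∈ F, ∀ e' ∈ F, e.2 ≠ e'.2 → ω e ≤ dist e.2 e'.2)
    {i : ℤ} (hi : ∀ e ∈ F, scale e.1 e.2 = i) (h3 : ∀ e ∈ F, ω e ≤ 2 * (2 : ℝ) ^ i) :
    ∑ e ∈ F, ω e ^ 2 ≤ 9 * ((2 : ℝ) ^ i) ^ 2 := by
  classical
  have hp : (0 : ℝ) < (2 : ℝ) ^ i := by positivity
  rcases F.eq_empty_or_nonempty with rfl | ⟨e0, he0⟩
  · simp only [Finset.sum_empty]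
    positivity
  set k := big (e0.2 - e0.1) with hk
  have hbig : ∀ e ∈ F, big (e.2 - e.1) = k := fun e he => (fkey_eq (hkey e he e0 he0)).2.2.2
  have hx : ∀ e ∈ F, ∀ e' ∈ F, e ≠ e' → ω e ≤ ‖(e'.1 + e'.2) - (e.1 + e.2)‖ := by
    intro e he e' he' hne
    obtain ⟨-, -, g1, -, -⟩ := same_key (hadj e he) (hadj e' he') (hkey e he e' he')
    apply le_of_sq_le_sq _ (norm_nonneg _)
    by_cases hc : e.1 = e'.1
    · have hc2 : e.2 ≠ e'.2 := fun h => hne (Prod.ext hc h)
      have := pow_le_pow_left₀ (h0 e he) (h2 e he e' he' hc2) 2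
      nlinarith [sq_nonneg (dist e.1 e'.1)]
    · have := pow_le_pow_left₀ (h0 e he) (h1 e he e' he' hc) 2
      nlinarith [sq_nonneg (dist e.2 e'.2)]
  have hsep : ∀ e ∈ F, ∀ e' ∈ F, e ≠ e' →
      ω e / 8 + ω e' / 8 ≤ dist (plane k e) (plane k e') := by
    intro e he e' he' hne
    obtain ⟨-, -, -, g2, g3⟩ := same_key (hadj e he) (hadj e' he') (hkey e he e' he')
    have hN : 8 * ‖(e'.1 + e'.2) - (e.1 + e.2)‖ ≤ ‖e.2 - e.1‖ := by
      have := scale_le (hadj e he).2.2.1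
      rw [dist_comm, dist_eq_norm] at this
      linarith
    have hb := big_spec (e.2 - e.1)
    rw [hbig e he] at hb
    have hg := proj_geom hb g2 hN
    have hd := dist_plane_ge k e e'
    have x1 := hx e he e' he' hne
    have x2 := hx e' he' e he hne.symm
    rw [norm_sub_rev] at x2
    linarith
  have hR : ∀ e ∈ F, dist (plane k e) (plane k e0) + ω e / 8 ≤ 3 / 8 * (2 : ℝ) ^ i := by
    intro e he
    obtain ⟨-, -, -, -, g3⟩ := same_key (hadj e he) (hadj e0 he0) (hkey e he e0 he0)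
    rw [hi e he] at g3
    have hd := dist_plane_le k e e0
    have := h3 e he
    linarith
  have hpack := packing F (plane k) (fun e => ω e / 8)
    (fun e he => div_nonneg (h0 e he) (by norm_num)) hsep hR
  have e1 : ∑ e ∈ F, (ω e / 8) ^ 2 = (∑ e ∈ F, ω e ^ 2) / 64 := by
    rw [Finset.sum_div]
    exact Finset.sum_congr rfl (fun e _ => by ring)
  rw [e1] at hpack
  nlinarith

lemma fcell_near {i : ℤ} {x y : E} (h : dist x y < (2 : ℝ) ^ (i + 1)) (j : Fin 3) :
    cell (i - 4) y j - cell (i - 4) x j ∈ Finset.Icc (-64 : ℤ) 64 := by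
  have hs : (0 : ℝ) < (2 : ℝ) ^ (i - 4 - 1) := by positivity
  have h2 : (2 : ℝ) ^ (i + 1) = 64 * (2 : ℝ) ^ (i - 4 - 1) := by
    have : (64 : ℝ) = (2 : ℝ) ^ (6 : ℤ) := by norm_num
    rw [this, ← zpow_add₀ (by norm_num : (2 : ℝ) ≠ 0)]; congr 1; ring
  set s := (2 : ℝ) ^ (i - 4 - 1) with hsdef
  have h1 := abs_coord_le x y j
  have h3 : |y j / s - x j / s| < 64 := by
    have e1 : y j / s - x j / s = (y j - x j) / s := by ring
    rw [e1, abs_div, abs_of_pos hs, div_lt_iff₀ hs, ← h2]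
    linarith
  obtain ⟨h4, h5⟩ := abs_lt.1 h3
  rw [Finset.mem_Icc]
  have a1 := Int.floor_le (y j / s)
  have a2 := Int.lt_floor_add_one (y j / s)
  have b1 := Int.floor_le (x j / s)
  have b2 := Int.lt_floor_add_one (x j / s)
  have c1 : ((⌊y j / s⌋ - ⌊x j / s⌋ : ℤ) : ℝ) < 65 := by push_cast; linarith
  have c2 : (-65 : ℝ) < ((⌊y j / s⌋ - ⌊x j / s⌋ : ℤ) : ℝ) := by push_cast; linarith
  have c1' : ⌊y j / s⌋ - ⌊x j / s⌋ < 65 := by exact_mod_cast c1
  have c2' : -65 < ⌊y j / s⌋ - ⌊x j / s⌋ := by exact_mod_cast c2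
  show -64 ≤ ⌊y j / s⌋ - ⌊x j / s⌋ ∧ ⌊y j / s⌋ - ⌊x j / s⌋ ≤ 64
  omega

/-- The box of differences of fine cells. -/
noncomputable def box : Finset (Fin 3 → ℤ) :=
  Fintype.piFinset (fun _ : Fin 3 => Finset.Icc (-64 : ℤ) 64)

lemma box_card : box.card = 2146689 := by
  unfold box
  rw [Fintype.card_piFinset]
  simp

/-- The number of fine keys is bounded by the number of their first halves. -/
lemma keys_le (G : Finset (E × E)) :
    (G.image fkey).card ≤ (G.image fone).card * 6440067 := by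
  classical
  set Bx := box ×ˢ (Finset.univ : Finset (Fin 3)) with hBx
  have hc : Bx.card = 6440067 := by
    rw [hBx, Finset.card_product, box_card]
    simp
  rw [← hc, ← Finset.card_product]
  have hsub : G.image fkey ⊆ ((G.image fone) ×ˢ Bx).image
      (fun t => (t.1.1, t.1.2, fun j => t.1.2 j + t.2.1 j, t.2.2)) := by
    intro k hk
    obtain ⟨e, he, rfl⟩ := Finset.mem_image.1 hk
    refine Finset.mem_image.2 ⟨(fone e, (fun j => cell (scale e.1 e.2 - 4) e.2 j
      - cell (scale e.1 e.2 - 4) e.1 j, big (e.2 - e.1))), ?_, ?_⟩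
    · rw [Finset.mem_product]
      refine ⟨Finset.mem_image_of_mem _ he, ?_⟩
      rw [hBx, Finset.mem_product]
      refine ⟨?_, Finset.mem_univ _⟩
      unfold box
      rw [Fintype.mem_piFinset]
      intro j
      exact fcell_near (lt_scale e.1 e.2) j
    · unfold fkey fone
      refine Prod.ext rfl (Prod.ext rfl (Prod.ext ?_ rfl))
      funext j
      simp
  exact (Finset.card_le_card hsub).trans Finset.card_image_le

/-- The number of first halves of keys is linear. -/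
lemma fone_card (P : Finset E) : ((edges P).image fone).card ≤ 125 * P.card := by
  classical
  have hsub : (edges P).image fone ⊆ P.biUnion (fun b =>
      ((P.filter (fun q => (relNbhd P).Adj b q)).image (fun q => scale b q)).image
        (fun i => (i, cell (i - 4) b))) := by
    intro k hk
    obtain ⟨e, he, rfl⟩ := Finset.mem_image.1 hk
    have ha := mem_edges.1 he
    refine Finset.mem_biUnion.2 ⟨e.1, ha.1, Finset.mem_image.2 ⟨scale e.1 e.2, ?_, rfl⟩⟩
    exact Finset.mem_image.2 ⟨e.2, Finset.mem_filter.2 ⟨ha.2.1, ha⟩, rfl⟩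
  refine (Finset.card_le_card hsub).trans (Finset.card_biUnion_le.trans ?_)
  calc _ ≤ ∑ b ∈ P, 125 := by
        apply Finset.sum_le_sum
        intro b _
        refine Finset.card_image_le.trans ?_
        exact scales_card P b _ (fun q hq => (Finset.mem_filter.1 hq).2)
    _ = 125 * P.card := by rw [Finset.sum_const, smul_eq_mul, mul_comm]

/-- Summation over the fibres of the key. -/
lemma sum_by_key (T : Finset (E × E)) (f : E × E → ℝ) {B : ℝ}
    (h : ∀ k ∈ T.image fkey, ∑ e ∈ T.filter (fun e => fkey e = k), f e ≤ B) :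
    ∑ e ∈ T, f e ≤ (T.image fkey).card * B := by
  classical
  rw [← Finset.sum_fiberwise_of_maps_to (fun e he => Finset.mem_image_of_mem fkey he) f]
  refine (Finset.sum_le_sum h).trans ?_
  rw [Finset.sum_const, nsmul_eq_mul]

end Helper76.RNGP
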