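import Pool.Agent.helper76.RNGP.Weight

/-!
# Edges of relative neighbourhood graphs pack in a surface: the local inequality
-/

namespace Helper76.RNGP

open scoped InnerProductSpace
open Helper5.RNG Helper5.RNGraph

/-- The weighted inequality for a set of edges, by the number of keys. -/
theorem weighted_keys (P : Finset E) (T : Finset (E × E))
    (hT : ∀ e ∈ T, (relNbhd P).Adj e.1 e.2) :
    ∑ e ∈ T, (min (gap P e.1 e.2) (gap P e.2 e.1) / dist e.1 e.2) ^ 2
      ≤ (T.image fkey).card * 9 := by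
  classical
  apply sum_by_key
  intro k hk
  obtain ⟨e0, he0, rfl⟩ := Finset.mem_image.1 hk
  set F := T.filter (fun e => fkey e = fkey e0) with hF
  have hadj : ∀ e ∈ F, (relNbhd P).Adj e.1 e.2 := fun e he =>
    hT e (Finset.mem_filter.1 he).1
  have hkey : ∀ e ∈ F, ∀ e' ∈ F, fkey e = fkey e' := fun e he e' he' => by
    rw [(Finset.mem_filter.1 he).2, (Finset.mem_filter.1 he').2]
  have hi : ∀ e ∈ F, scale e.1 e.2 = scale e0.1 e0.2 := fun e he =>
    (fkey_eq (Finset.mem_filter.1 he).2).1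
  set i := scale e0.1 e0.2 with hidef
  have hp : (0 : ℝ) < (2 : ℝ) ^ i := by positivity
  have hw := fiber_weight F hadj hkey (fun e => min (gap P e.1 e.2) (gap P e.2 e.1))
    (fun e _ => le_min (gap_nonneg _ _ _) (gap_nonneg _ _ _))
    (fun e he e' he' hne => by
      refine (min_le_left _ _).trans (gap_le (hadj e' he') hne.symm ?_ ?_)
      · exact comparable (hadj e he).2.2.1 (hadj e' he').2.2.1 (by rw [hi e he, hi e' he'])
      · exact comparable (hadj e' he').2.2.1 (hadj e he).2.2.1 (by rw [hi e he, hi e' he']))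
    (fun e he e' he' hne => by
      refine (min_le_right _ _).trans (gap_le (hadj e' he').symm hne.symm ?_ ?_)
      · rw [dist_comm e.2, dist_comm e'.2]
        exact comparable (hadj e he).2.2.1 (hadj e' he').2.2.1 (by rw [hi e he, hi e' he'])
      · rw [dist_comm e.2, dist_comm e'.2]
        exact comparable (hadj e' he').2.2.1 (hadj e he).2.2.1 (by rw [hi e he, hi e' he']))
    hi
    (fun e he => by
      refine (min_le_left _ _).trans ((gap_le_dist (hadj e he)).trans ?_)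
      have := lt_scale e.1 e.2
      rw [hi e he, zpow_succ_two] at this
      exact this.le)
  calc ∑ e ∈ F, (min (gap P e.1 e.2) (gap P e.2 e.1) / dist e.1 e.2) ^ 2
      ≤ ∑ e ∈ F, min (gap P e.1 e.2) (gap P e.2 e.1) ^ 2 / ((2 : ℝ) ^ i) ^ 2 := by
        apply Finset.sum_le_sum
        intro e he
        rw [div_pow]
        have h2 := scale_le (hadj e he).2.2.1
        rw [hi e he] at h2
        have h3 : ((2 : ℝ) ^ i) ^ 2 ≤ dist e.1 e.2 ^ 2 := pow_le_pow_left₀ hp.le h2 2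
        exact div_le_div_of_nonneg_left (sq_nonneg _) (by positivity) h3
    _ = (∑ e ∈ F, min (gap P e.1 e.2) (gap P e.2 e.1) ^ 2) / ((2 : ℝ) ^ i) ^ 2 := by
        rw [Finset.sum_div]
    _ ≤ 9 := by
        rw [div_le_iff₀ (by positivity)]
        exact hw

/-- The number of first halves of keys of edges of length between `ℓ` and `2 ℓ` which start near
a given point. -/
lemma fone_local {P : Finset E} {x : E} {ℓ : ℝ} (hℓ : 0 < ℓ) (T : Finset (E × E))
    (hT : ∀ e ∈ T, (relNbhd P).Adj e.1 e.2 ∧ dist x e.1 ≤ ℓ ∧ ℓ ≤ dist e.1 e.2 ∧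
      dist e.1 e.2 ≤ 2 * ℓ) : (T.image fone).card ≤ 4293378 := by
  classical
  set i0 := Int.log 2 ℓ with hi0
  have b1 : (2 : ℝ) ^ i0 ≤ ℓ := by
    have := Int.zpow_log_le_self (b := 2) (by norm_num) hℓ
    exact_mod_cast this
  have b2 : ℓ < (2 : ℝ) ^ (i0 + 1) := by
    have := Int.lt_zpow_succ_log_self (b := 2) (by norm_num) ℓ
    exact_mod_cast this
  have hlt : ∀ {a b : ℤ}, (2 : ℝ) ^ a < (2 : ℝ) ^ b → a < b := fun {a b} h =>
    (zpow_lt_zpow_iff_right₀ (by norm_num : (1 : ℝ) < 2)).1 h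
  have hsc : ∀ e ∈ T, scale e.1 e.2 ∈ ({i0, i0 + 1} : Finset ℤ) := by
    intro e he
    obtain ⟨ha, -, h2, h3⟩ := hT e he
    have h4 := scale_le ha.2.2.1
    have h5 := lt_scale e.1 e.2
    have h6 : i0 < scale e.1 e.2 + 1 := hlt (b1.trans_lt (h2.trans_lt h5))
    have h7 : scale e.1 e.2 < i0 + 2 := by
      apply hlt
      have h8 : (2 : ℝ) ^ (i0 + 2) = 2 * (2 : ℝ) ^ (i0 + 1) := by
        rw [← zpow_one_add₀ (by norm_num : (2 : ℝ) ≠ 0)]; congr 1; ring
      rw [h8]
      linarith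
    rw [Finset.mem_insert, Finset.mem_singleton]
    omega
  set Bx := ({i0, i0 + 1} : Finset ℤ) ×ˢ box with hBx
  have hc : Bx.card ≤ 4293378 := by
    rw [hBx, Finset.card_product, box_card]
    have := Finset.card_le_two (a := i0) (b := i0 + 1)
    omega
  refine le_trans ?_ hc
  have hsub : T.image fone ⊆ Bx.image (fun t => (t.1, fun j => t.2 j + cell (t.1 - 4) x j)) := by
    intro k hk
    obtain ⟨e, he, rfl⟩ := Finset.mem_image.1 hk
    obtain ⟨ha, h1, h2, h3⟩ := hT e he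
    have hs := hsc e he
    have hd : dist x e.1 < (2 : ℝ) ^ (scale e.1 e.2 + 1) := by
      have h5 := lt_scale e.1 e.2
      linarith
    refine Finset.mem_image.2 ⟨(scale e.1 e.2, fun j => cell (scale e.1 e.2 - 4) e.1 j
      - cell (scale e.1 e.2 - 4) x j), ?_, ?_⟩
    · rw [hBx, Finset.mem_product]
      refine ⟨hs, ?_⟩
      unfold box
      rw [Fintype.mem_piFinset]
      intro j
      exact fcell_near hd j
    · unfold fone
      refine Prod.ext rfl ?_
      funext j
      simp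
  exact (Finset.card_le_card hsub).trans Finset.card_image_le

open scoped Classical in
/-- The local packing inequality. -/
theorem local_packing (P : Finset (EuclideanSpace ℝ (Fin 3))) (x : EuclideanSpace ℝ (Fin 3))
    (ℓ : ℝ) (hℓ : 0 < ℓ) :
    ∑ e ∈ (P ×ˢ P).filter (fun e => (relNbhd P).Adj e.1 e.2 ∧ dist x e.1 ≤ ℓ ∧
        ℓ ≤ dist e.1 e.2 ∧ dist e.1 e.2 ≤ 2 * ℓ),
      (min (gap P e.1 e.2) (gap P e.2 e.1) / dist e.1 e.2) ^ 2 ≤ 10 ^ 15 := by
  set T := (P ×ˢ P).filter (fun e => (relNbhd P).Adj e.1 e.2 ∧ dist x e.1 ≤ ℓ ∧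
        ℓ ≤ dist e.1 e.2 ∧ dist e.1 e.2 ≤ 2 * ℓ) with hT
  have hT' : ∀ e ∈ T, (relNbhd P).Adj e.1 e.2 ∧ dist x e.1 ≤ ℓ ∧ ℓ ≤ dist e.1 e.2 ∧
      dist e.1 e.2 ≤ 2 * ℓ := fun e he => (Finset.mem_filter.1 he).2
  have h1 := weighted_keys P T (fun e he => (hT' e he).1)
  have h2 := keys_le T
  have h3 := fone_local hℓ T hT'
  have h4 : (T.image fkey).card ≤ 4293378 * 6440067 := h2.trans (Nat.mul_le_mul_right _ h3)
  have h5 : ((T.image fkey).card : ℝ) ≤ 4293378 * 6440067 := by exact_mod_cast h4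
  have h6 : (4293378 : ℝ) * 6440067 * 9 ≤ 10 ^ 15 := by norm_num
  linarith

end Helper76.RNGP
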