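import Pool.Agent.helper76.RNGP.Spread

/-!
# Edges of relative neighbourhood graphs pack in a surface: the bound by packing numbers
-/

namespace Helper76.RNGP

open scoped InnerProductSpace
open Helper5.RNG Helper5.RNGraph

/-- A set is contained in the union of the balls around a separated subset. -/
lemma exists_net (V : Finset E) (ℓ : ℝ) : ∃ Q ⊆ V,
    (∀ p ∈ Q, ∀ q ∈ Q, p ≠ q → ℓ ≤ dist p q) ∧ ∀ v ∈ V, ∃ q ∈ Q, dist q v < ℓ ∨ q = v := by
  classical
  induction V using Finset.induction_on with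
  | empty => exact ⟨∅, subset_rfl, by simp, by simp⟩
  | insert a s ha ih =>
    obtain ⟨Q, hQ, h1, h2⟩ := ih
    by_cases h : ∃ q ∈ Q, dist q a < ℓ
    · obtain ⟨q, hq, hqa⟩ := h
      refine ⟨Q, hQ.trans (Finset.subset_insert _ _), h1, ?_⟩
      intro v hv
      rcases Finset.mem_insert.1 hv with rfl | hv
      · exact ⟨q, hq, Or.inl hqa⟩
      · exact h2 v hv
    · push Not at h
      refine ⟨insert a Q, Finset.insert_subset_insert a hQ, ?_, ?_⟩
      · intro p hp q hq hpq
        rcases Finset.mem_insert.1 hp with hp1 | hp1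
        · rcases Finset.mem_insert.1 hq with hq1 | hq1
          · exact absurd (hp1.trans hq1.symm) hpq
          · rw [hp1, dist_comm]
            exact h q hq1
        · rcases Finset.mem_insert.1 hq with hq1 | hq1
          · rw [hq1]
            exact h p hp1
          · exact h1 p hp1 q hq1 hpq
      · intro v hv
        rcases Finset.mem_insert.1 hv with rfl | hv
        · exact ⟨v, Finset.mem_insert_self _ _, Or.inr rfl⟩
        · obtain ⟨q, hq, hq2⟩ := h2 v hv
          exact ⟨q, Finset.mem_insert_of_mem hq, hq2⟩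

/-- The number of fine cells against the packing number. -/
lemma fone_card_le {P : Finset E} {i : ℤ} {N : ℕ}
    (hN : ∀ Q ⊆ P, (∀ p ∈ Q, ∀ q ∈ Q, p ≠ q → (2 : ℝ) ^ i ≤ dist p q) → Q.card ≤ N)
    (T : Finset (E × E)) (hT : ∀ e ∈ T, e ∈ edgesAt P i) :
    (T.image fone).card ≤ 16974593 * N := by
  classical
  set V := T.image Prod.fst with hV
  obtain ⟨Q, hQ, h1, h2⟩ := exists_net V ((2 : ℝ) ^ i)
  have hp : (0 : ℝ) < (2 : ℝ) ^ i := by positivity
  have hVP : V ⊆ P := by
    intro v hv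
    obtain ⟨e, he, rfl⟩ := Finset.mem_image.1 hv
    exact (mem_edgesAt.1 (hT e he)).1.1
  have hQN : Q.card ≤ N := hN Q (hQ.trans hVP) h1
  have hcov : T.image fone ⊆
      Q.biUnion (fun q => box2.image (fun f => ((i, fun j => f j + cell (i - 4) q j) :
        ℤ × (Fin 3 → ℤ)))) := by
    intro t ht
    obtain ⟨e, he, rfl⟩ := Finset.mem_image.1 ht
    have hev : e.1 ∈ V := Finset.mem_image_of_mem _ he
    obtain ⟨q, hq, hqe⟩ := h2 _ hev
    have hd : dist q e.1 < (2 : ℝ) ^ (i + 2) := by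
      have h3 : (2 : ℝ) ^ (i + 2) = 4 * (2 : ℝ) ^ i := by
        rw [zpow_add₀ (by norm_num : (2 : ℝ) ≠ 0)]
        norm_num
        ring
      rw [h3]
      rcases hqe with h | h
      · linarith
      · rw [h, dist_self]
        linarith
    rw [Finset.mem_biUnion]
    refine ⟨q, hq, ?_⟩
    rw [Finset.mem_image]
    refine ⟨fun j => cell (i - 4) e.1 j - cell (i - 4) q j, ?_, ?_⟩
    · rw [mem_box2]
      intro j
      exact fcell_near2 hd j
    · unfold fone
      rw [(mem_edgesAt.1 (hT e he)).2]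
      refine Prod.ext rfl ?_
      funext j
      simp
  refine (Finset.card_le_card hcov).trans ?_
  refine Finset.card_biUnion_le.trans ?_
  calc ∑ q ∈ Q, (box2.image (fun f => ((i, fun j => f j + cell (i - 4) q j) :
        ℤ × (Fin 3 → ℤ)))).card ≤ ∑ q ∈ Q, 16974593 := by
        apply Finset.sum_le_sum
        intro q _
        exact Finset.card_image_le.trans box2_card.le
    _ = 16974593 * Q.card := by rw [Finset.sum_const, smul_eq_mul, mul_comm]
    _ ≤ 16974593 * N := Nat.mul_le_mul_left _ hQN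

/-- The bound by packing numbers. -/
theorem profile : ∃ C : ℝ, ∀ (P : Finset E) (J : ℕ) (N : ℕ → ℕ),
    (∀ p ∈ P, ∀ q ∈ P, p ≠ q → 1 ≤ dist p q ∧ dist p q < 2 ^ J) →
    (∀ k, ∀ Q ⊆ P, (∀ p ∈ Q, ∀ q ∈ Q, p ≠ q → (2 : ℝ) ^ k ≤ dist p q) → Q.card ≤ N k) →
    (numEdges P : ℝ) ≤ C * ∑ k ∈ Finset.range J,
      min ((P.card : ℝ) * ((2 : ℝ) ^ k) ^ ((2 : ℝ) / 3)) ((N k : ℝ) * ((2 : ℝ) ^ k) ^ 2) := by
  classical
  set A0 : ℝ := 57960603 ^ (1 - 1 / ((3 : ℝ) / 2)) * (2 * 637875) ^ (1 / ((3 : ℝ) / 2)) * 16974593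
    with hA0
  have hA0p : 0 < A0 := by positivity
  set B0 : ℝ := 16974593 * 57960603 with hB0
  have hB0p : 0 < B0 := by rw [hB0]; norm_num
  refine ⟨max A0 B0, fun P J N hP hN => ?_⟩
  have hC0 : 0 ≤ max A0 B0 := hA0p.le.trans (le_max_left _ _)
  have hsep : ∀ p ∈ P, ∀ q ∈ P, p ≠ q → (1 : ℝ) ≤ dist p q := fun p hp q hq h => (hP p hp q hq h).1
  set f : ℕ → ℝ := fun k =>
    min ((P.card : ℝ) * ((2 : ℝ) ^ k) ^ ((2 : ℝ) / 3)) ((N k : ℝ) * ((2 : ℝ) ^ k) ^ 2) with hf
  have hf0 : ∀ k, 0 ≤ f k := fun k => le_min (by positivity) (by positivity)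
  have hbd : ∀ i ∈ scales P, 0 ≤ i ∧ i < J := by
    intro i hi
    obtain ⟨e, he, hs⟩ := mem_scales.1 hi
    have ha := mem_edges.1 he
    have h1 := scale_le ha.2.2.1
    have h2 := lt_scale e.1 e.2
    rw [hs] at h1 h2
    obtain ⟨h3, h4⟩ := hP _ ha.1 _ ha.2.1 ha.2.2.1
    have h5 : (2 : ℝ) ^ (0 : ℤ) < (2 : ℝ) ^ (i + 1) := by
      rw [zpow_zero]
      linarith
    have h6 : (2 : ℝ) ^ i < (2 : ℝ) ^ (J : ℤ) := by
      rw [zpow_natCast]
      linarith
    have h7 := two_lt_iff.1 h5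
    have h8 := two_lt_iff.1 h6
    omega
  have hone : ∀ i ∈ scales P, ((edgesAt P i).card : ℝ) ≤ max A0 B0 * f i.toNat := by
    intro i hi
    obtain ⟨h1, h2⟩ := hbd i hi
    have hi2 : ((2 : ℝ) ^ i) = (2 : ℝ) ^ i.toNat := by
      rw [← zpow_natCast, Int.toNat_of_nonneg h1]
    rw [hf]
    simp only
    rw [mul_min_of_nonneg _ _ hC0]
    refine le_min ?_ ?_
    · have h3 := scale_A (P := P) (γ := (3 : ℝ) / 2) (K := 637875) one_pos (by norm_num)
        (by norm_num) e3_half hsep i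
      have h4 : (2 : ℝ) - 2 / ((3 : ℝ) / 2) = (2 : ℝ) / 3 := by norm_num
      rw [h4, div_one, hi2] at h3
      refine h3.trans ?_
      rw [mul_assoc]
      apply mul_le_mul_of_nonneg_right (le_max_left _ _)
      positivity
    · have h3 := scale_card one_pos hsep i (edgesAt P i) (fun e he => (mem_edgesAt.1 he).1)
        (fun e he => (mem_edgesAt.1 he).2)
      rw [div_one, hi2] at h3
      have h4 := fone_card_le (P := P) (i := i) (N := N i.toNat) (by
        intro Q hQ hq
        refine hN i.toNat Q hQ ?_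
        rw [← hi2]
        exact hq) (edgesAt P i) (fun e he => he)
      have h5 : (((edgesAt P i).image fone).card : ℝ) ≤ 16974593 * (N i.toNat : ℝ) := by
        exact_mod_cast h4
      calc ((edgesAt P i).card : ℝ)
          ≤ ((edgesAt P i).image fone).card * 57960603 * ((2 : ℝ) ^ i.toNat) ^ 2 := h3
        _ ≤ (16974593 * (N i.toNat : ℝ)) * 57960603 * ((2 : ℝ) ^ i.toNat) ^ 2 := by
          gcongr
        _ = B0 * ((N i.toNat : ℝ) * ((2 : ℝ) ^ i.toNat) ^ 2) := by
          rw [hB0]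
          ring
        _ ≤ _ := by
          apply mul_le_mul_of_nonneg_right (le_max_right _ _)
          positivity
  have hinj : Set.InjOn (fun i : ℤ => i.toNat) ↑(scales P) := by
    intro i hi i' hi' h
    have h1 := hbd i hi
    have h2 := hbd i' hi'
    simp only at h
    omega
  have h1 : ((edges P).card : ℝ) ≤ ∑ i ∈ scales P, max A0 B0 * f i.toNat := by
    rw [edges_card]
    push_cast
    exact Finset.sum_le_sum hone
  have h2 : (numEdges P : ℝ) ≤ (edges P).card := by exact_mod_cast numEdges_le P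
  have h3 : ∑ i ∈ scales P, f i.toNat ≤ ∑ k ∈ Finset.range J, f k := by
    rw [← Finset.sum_image (g := fun i : ℤ => i.toNat) (f := f) hinj]
    apply Finset.sum_le_sum_of_subset_of_nonneg
    · intro k hk
      obtain ⟨i, hi, rfl⟩ := Finset.mem_image.1 hk
      have h1 := hbd i hi
      rw [Finset.mem_range]
      omega
    · intro k _ _
      exact hf0 k
  rw [← Finset.mul_sum] at h1
  exact h2.trans (h1.trans (mul_le_mul_of_nonneg_left h3 hC0))

end Helper76.RNGP
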