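import Pool.Agent.helper76.RNGP.Half

/-!
# Edges of relative neighbourhood graphs pack in a surface: sets of given spread
-/

namespace Helper76.RNGP

open scoped InnerProductSpace
open Helper5.RNG Helper5.RNGraph

/-- Sums of distinct powers. -/
lemma geo_up {r : ℝ} (hr : 1 < r) (I : Finset ℤ) :
    ∀ M : ℤ, (∀ i ∈ I, i ≤ M) → ∑ i ∈ I, r ^ i ≤ r ^ (M + 1) / (r - 1) := by
  have hr0 : 0 < r := by linarith
  have hr1 : 0 < r - 1 := by linarith
  induction I using Finset.induction_on_max with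
  | empty =>
    intro M _
    simp only [Finset.sum_empty]
    positivity
  | insert a s ha ih =>
    intro M hM
    have hna : a ∉ s := fun h => lt_irrefl _ (ha a h)
    rw [Finset.sum_insert hna]
    have h1 := ih (a - 1) (fun i hi => by have := ha i hi; omega)
    rw [sub_add_cancel] at h1
    have h2 : a ≤ M := hM a (Finset.mem_insert_self _ _)
    have h3 : r ^ (a + 1) ≤ r ^ (M + 1) := zpow_le_zpow_right₀ hr.le (by omega)
    have h4 : r ^ a + r ^ a / (r - 1) = r ^ (a + 1) / (r - 1) := by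
      rw [zpow_add₀ hr0.ne', zpow_one]
      field_simp
      ring
    calc r ^ a + ∑ i ∈ s, r ^ i ≤ r ^ a + r ^ a / (r - 1) := by linarith
      _ = r ^ (a + 1) / (r - 1) := h4
      _ ≤ _ := div_le_div_of_nonneg_right h3 hr1.le

lemma geo_up' {r : ℝ} (hr : 1 < r) (I : Finset ℤ) {Y : ℝ} (hY : 0 ≤ Y)
    (h : ∀ i ∈ I, r ^ i ≤ Y) : ∑ i ∈ I, r ^ i ≤ Y * (r / (r - 1)) := by
  have hr0 : 0 < r := by linarith
  have hr1 : 0 < r - 1 := by linarith
  rcases I.eq_empty_or_nonempty with rfl | hne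
  · simp only [Finset.sum_empty]
    positivity
  · have h1 := geo_up hr I (I.max' hne) (fun i hi => I.le_max' i hi)
    have h2 := h _ (I.max'_mem hne)
    refine h1.trans ?_
    rw [zpow_add₀ hr0.ne', zpow_one, mul_div_assoc]
    exact mul_le_mul_of_nonneg_right h2 (by positivity)

/-- `(2 ^ i) ^ a` as a power of `2 ^ a`. -/
lemma two_pow_rpow (i : ℤ) (a : ℝ) : ((2 : ℝ) ^ i) ^ a = ((2 : ℝ) ^ a) ^ i := by
  rw [← Real.rpow_intCast, ← Real.rpow_intCast, ← Real.rpow_mul (by norm_num),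
    ← Real.rpow_mul (by norm_num), mul_comm]

/-- The sum over the scales of the smaller of two bounds. -/
lemma sum_min {A B a δ : ℝ} (hA : 0 < A) (hB : 0 < B) (ha : 0 < a) (hδ : 0 < δ) (I : Finset ℤ)
    (f : ℤ → ℝ) (h1 : ∀ i ∈ I, f i ≤ A * ((2 : ℝ) ^ i / δ) ^ a)
    (h2 : ∀ i ∈ I, f i ≤ B / ((2 : ℝ) ^ i / δ)) :
    ∑ i ∈ I, f i ≤ ((2 : ℝ) ^ a / ((2 : ℝ) ^ a - 1) + 2) *
      (A ^ (1 / (1 + a)) * B ^ (a / (1 + a))) := by
  classical
  set r := (2 : ℝ) ^ a with hr
  have hr1 : 1 < r := Real.one_lt_rpow (by norm_num) ha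
  have h1a : 0 < 1 + a := by linarith
  set y := (B / A) ^ (1 / (1 + a)) with hy
  have hBA : 0 < B / A := div_pos hB hA
  have hy0 : 0 < y := Real.rpow_pos_of_pos hBA _
  have hBy : B / y = A ^ (1 / (1 + a)) * B ^ (a / (1 + a)) := by
    rw [hy, Real.div_rpow hB.le hA.le]
    have e1 : B = B ^ (1 / (1 + a)) * B ^ (a / (1 + a)) := by
      rw [← Real.rpow_add hB]
      have : 1 / (1 + a) + a / (1 + a) = 1 := by field_simp
      rw [this, Real.rpow_one]
    have p1 : 0 < B ^ (1 / (1 + a)) := Real.rpow_pos_of_pos hB _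
    have p2 : 0 < A ^ (1 / (1 + a)) := Real.rpow_pos_of_pos hA _
    rw [div_div_eq_mul_div, div_eq_iff p1.ne']
    calc B * A ^ (1 / (1 + a)) = (B ^ (1 / (1 + a)) * B ^ (a / (1 + a))) * A ^ (1 / (1 + a)) := by
          rw [← e1]
      _ = _ := by ring
  have hAy : A * y ^ a = B / y := by
    have e1 : y * y ^ a = B / A := by
      have : y ^ (1 + a) = B / A := by
        rw [hy, ← Real.rpow_mul hBA.le]
        have : 1 / (1 + a) * (1 + a) = 1 := by field_simp
        rw [this, Real.rpow_one]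
      rw [Real.rpow_add hy0, Real.rpow_one] at this
      exact this
    rw [eq_div_iff hy0.ne']
    calc A * y ^ a * y = A * (y * y ^ a) := by ring
      _ = B := by rw [e1]; field_simp
  rw [← Finset.sum_filter_add_sum_filter_not I (fun i => (2 : ℝ) ^ i / δ ≤ y)]
  have hda : 0 < δ ^ a := Real.rpow_pos_of_pos hδ a
  have s1 : ∑ i ∈ I.filter (fun i => (2 : ℝ) ^ i / δ ≤ y), f i ≤ (B / y) * (r / (r - 1)) := by
    have t1 : ∑ i ∈ I.filter (fun i => (2 : ℝ) ^ i / δ ≤ y), f i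
        ≤ ∑ i ∈ I.filter (fun i => (2 : ℝ) ^ i / δ ≤ y), A / δ ^ a * r ^ i := by
      apply Finset.sum_le_sum
      intro i hi
      refine (h1 i (Finset.mem_filter.1 hi).1).trans (le_of_eq ?_)
      rw [Real.div_rpow (by positivity) hδ.le, two_pow_rpow]
      ring
    have t2 := geo_up' hr1 (I.filter (fun i => (2 : ℝ) ^ i / δ ≤ y)) (Y := δ ^ a * y ^ a)
      (by positivity) (by
        intro i hi
        have hi2 := (Finset.mem_filter.1 hi).2
        have e2 : (2 : ℝ) ^ i ≤ δ * y := by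
          rw [div_le_iff₀ hδ] at hi2
          linarith
        rw [hr, ← two_pow_rpow, ← Real.mul_rpow hδ.le hy0.le]
        exact Real.rpow_le_rpow (by positivity) e2 ha.le)
    rw [← Finset.mul_sum] at t1
    refine t1.trans ?_
    calc A / δ ^ a * ∑ i ∈ I.filter (fun i => (2 : ℝ) ^ i / δ ≤ y), r ^ i
        ≤ A / δ ^ a * (δ ^ a * y ^ a * (r / (r - 1))) := by
          apply mul_le_mul_of_nonneg_left t2
          positivity
      _ = (A * y ^ a) * (r / (r - 1)) := by
          field_simp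
      _ = _ := by rw [hAy]
  have s2 : ∑ i ∈ I.filter (fun i => ¬ ((2 : ℝ) ^ i / δ ≤ y)), f i ≤ (B / y) * 2 := by
    have t1 : ∑ i ∈ I.filter (fun i => ¬ ((2 : ℝ) ^ i / δ ≤ y)), f i
        ≤ ∑ i ∈ I.filter (fun i => ¬ ((2 : ℝ) ^ i / δ ≤ y)), B * δ * (2 : ℝ) ^ (-i) := by
      apply Finset.sum_le_sum
      intro i hi
      refine (h2 i (Finset.mem_filter.1 hi).1).trans (le_of_eq ?_)
      rw [zpow_neg]
      have : (0 : ℝ) < (2 : ℝ) ^ i := by positivity
      field_simp
    have hneg : ∑ i ∈ I.filter (fun i => ¬ ((2 : ℝ) ^ i / δ ≤ y)), (2 : ℝ) ^ (-i)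
        = ∑ j ∈ (I.filter (fun i => ¬ ((2 : ℝ) ^ i / δ ≤ y))).image (fun i => -i), (2 : ℝ) ^ j := by
      rw [Finset.sum_image (fun x _ y _ h => neg_injective h)]
    have t2 := geo_up' (r := 2) (by norm_num)
      ((I.filter (fun i => ¬ ((2 : ℝ) ^ i / δ ≤ y))).image (fun i => -i)) (Y := 1 / (δ * y))
      (by positivity) (by
        intro j hj
        obtain ⟨i, hi, rfl⟩ := Finset.mem_image.1 hj
        have hi2 := (Finset.mem_filter.1 hi).2
        rw [not_le, lt_div_iff₀ hδ] at hi2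
        rw [zpow_neg, ← one_div]
        apply one_div_le_one_div_of_le (by positivity)
        linarith)
    rw [← hneg] at t2
    rw [← Finset.mul_sum] at t1
    refine t1.trans ?_
    calc B * δ * ∑ i ∈ I.filter (fun i => ¬ ((2 : ℝ) ^ i / δ ≤ y)), (2 : ℝ) ^ (-i)
        ≤ B * δ * (1 / (δ * y) * (2 / (2 - 1))) := by
          apply mul_le_mul_of_nonneg_left t2
          positivity
      _ = _ := by
          field_simp
          ring
  rw [← hBy]
  calc _ ≤ (B / y) * (r / (r - 1)) + (B / y) * 2 := add_le_add s1 s2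
    _ = _ := by ring

/-- Ordered pairs against edges. -/
lemma edges_le_numEdges (S : Finset E) : (edges S).card ≤ 2 * numEdges S := by
  classical
  have h1 := Finset.card_le_mul_card_image (f := fun e : E × E => s(e.1, e.2)) (edges S) 2 (by
    intro a ha
    obtain ⟨e, he, rfl⟩ := Finset.mem_image.1 ha
    have hsub : (edges S).filter (fun x => s(x.1, x.2) = s(e.1, e.2)) ⊆ {e, e.swap} := by
      intro x hx
      have hx2 := (Finset.mem_filter.1 hx).2
      rw [Sym2.eq_iff] at hx2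
      rw [Finset.mem_insert, Finset.mem_singleton]
      rcases hx2 with ⟨h3, h4⟩ | ⟨h3, h4⟩
      · left
        exact Prod.ext h3 h4
      · right
        exact Prod.ext h3 h4
    exact (Finset.card_le_card hsub).trans Finset.card_le_two)
  have h2 : ((edges S).image (fun e : E × E => s(e.1, e.2))).card ≤ numEdges S := by
    unfold numEdges
    rw [← Set.ncard_coe_finset]
    apply Set.ncard_le_ncard _ (edgeSet_finite S)
    intro x hx
    obtain ⟨e, he, rfl⟩ := Finset.mem_image.1 (Finset.mem_coe.1 hx)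
    exact mem_edges.1 he
  omega

/-- The part of the edges of one scale with a given first half of the key. -/
lemma part_le {P : Finset E} {i : ℤ} {t e0 : E × E} (h0 : e0 ∈ edgesAt P i)
    (G : Finset (E × E)) (hG : ∀ e ∈ G, e ∈ edgesAt P i ∧ fone e = fone e0) :
    G.card ≤ 2 * e3 (near P i e0.1).card := by
  obtain ⟨ha0, hs0⟩ := mem_edgesAt.1 h0
  have hp : (0 : ℝ) < (2 : ℝ) ^ i := by positivity
  have hsub : G ⊆ edges (near P i e0.1) := by
    intro e he
    obtain ⟨he1, he2⟩ := hG e he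
    obtain ⟨ha, hs⟩ := mem_edgesAt.1 he1
    have hc : cell (i - 4) e0.1 = cell (i - 4) e.1 := by
      have := congrArg Prod.snd he2
      unfold fone at this
      simp only at this
      rw [hs, hs0] at this
      exact this.symm
    have h1 := cell_close hc
    rw [zpow_sub_four] at h1
    have h2 := lt_scale e.1 e.2
    rw [hs, zpow_succ_two] at h2
    have h3 : (2 : ℝ) ^ (i + 2) = 4 * (2 : ℝ) ^ i := by
      rw [zpow_add₀ (by norm_num : (2 : ℝ) ≠ 0)]
      norm_num
      ring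
    have m1 : e.1 ∈ near P i e0.1 := mem_near.2 ⟨ha.1, by rw [h3]; linarith⟩
    have m2 : e.2 ∈ near P i e0.1 := by
      refine mem_near.2 ⟨ha.2.1, ?_⟩
      have := dist_triangle e0.1 e.1 e.2
      rw [h3]
      linarith
    rw [mem_edges]
    exact RNG_mono (fun z hz => (mem_near.1 hz).1) ha m1 m2
  have h1 := Finset.card_le_card hsub
  have h2 := edges_le_numEdges (near P i e0.1)
  have h3 := numEdges_le_e3 (near P i e0.1)
  omega

/-- First bound for one scale. -/
theorem scale_A {P : Finset E} {δ γ K : ℝ} (hδ : 0 < δ) (hγ : 1 ≤ γ) (hK : 0 < K)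
    (he : ∀ m : ℕ, (e3 m : ℝ) ≤ K * (m : ℝ) ^ γ)
    (hsep : ∀ p ∈ P, ∀ q ∈ P, p ≠ q → δ ≤ dist p q) (i : ℤ) :
    ((edgesAt P i).card : ℝ) ≤ (57960603 ^ (1 - 1 / γ) * (2 * K) ^ (1 / γ) * 16974593 * P.card) *
      ((2 : ℝ) ^ i / δ) ^ (2 - 2 / γ) := by
  classical
  set T := edgesAt P i with hTdef
  obtain ⟨rep, hrep⟩ := exists_rep T
  have hp : (0 : ℝ) < (2 : ℝ) ^ i := by positivity
  have hx : 0 < (2 : ℝ) ^ i / δ := by positivity
  set x := (2 : ℝ) ^ i / δ with hxdef
  have hγ0 : 0 < γ := by linarith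
  have hγ1 : 0 < 1 / γ := by positivity
  have hγ2 : 0 ≤ 1 - 1 / γ := by
    have : 1 / γ ≤ 1 := (div_le_one hγ0).2 hγ
    linarith
  have h2 := overlap P i (T.image fone) rep (fun t ht => (hrep t ht).2)
    (fun t ht => (mem_edgesAt.1 (hrep t ht).1).2)
  have h2' : ∑ t ∈ T.image fone, ((near P i (rep t).1).card : ℝ) ≤ 16974593 * P.card := by
    exact_mod_cast h2
  have hpart : ∀ t ∈ T.image fone, ((T.filter (fun e => fone e = t)).card : ℝ) ≤
      57960603 ^ (1 - 1 / γ) * (2 * K) ^ (1 / γ) * x ^ (2 - 2 / γ) *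
        (near P i (rep t).1).card := by
    intro t ht
    set G := T.filter (fun e => fone e = t) with hG
    have hGT : ∀ e ∈ G, e ∈ T ∧ fone e = t := fun e he' => Finset.mem_filter.1 he'
    have b1 : (G.card : ℝ) ≤ 57960603 * x ^ 2 := by
      have h3 := scale_card hδ hsep i G (fun e he' => (mem_edgesAt.1 (hGT e he').1).1)
        (fun e he' => (mem_edgesAt.1 (hGT e he').1).2)
      have h4 : (G.image fone).card ≤ 1 := by
        rw [Finset.card_le_one]
        intro a ha b hb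
        obtain ⟨e, he', rfl⟩ := Finset.mem_image.1 ha
        obtain ⟨e', he'', rfl⟩ := Finset.mem_image.1 hb
        rw [(hGT e he').2, (hGT e' he'').2]
      have h5 : ((G.image fone).card : ℝ) ≤ 1 := by exact_mod_cast h4
      refine h3.trans ?_
      have : (0 : ℝ) ≤ 57960603 * x ^ 2 := by positivity
      nlinarith
    have b2 : (G.card : ℝ) ≤ 2 * K * ((near P i (rep t).1).card : ℝ) ^ γ := by
      have h3 := part_le (t := (rep t)) (hrep t ht).1 G (fun e he' =>
        ⟨(hGT e he').1, by rw [(hGT e he').2, (hrep t ht).2]⟩)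
      have h4 : (G.card : ℝ) ≤ 2 * (e3 (near P i (rep t).1).card : ℝ) := by exact_mod_cast h3
      have h5 := he (near P i (rep t).1).card
      linarith
    have hG0 : (0 : ℝ) ≤ G.card := Nat.cast_nonneg _
    have hN0 : (0 : ℝ) ≤ (near P i (rep t).1).card := Nat.cast_nonneg _
    have e1 : (G.card : ℝ) = (G.card : ℝ) ^ (1 - 1 / γ) * (G.card : ℝ) ^ (1 / γ) := by
      rw [← Real.rpow_add_of_nonneg hG0 hγ2 hγ1.le]
      simp
    have c1 : (G.card : ℝ) ^ (1 - 1 / γ) ≤ (57960603 * x ^ 2) ^ (1 - 1 / γ) :=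
      Real.rpow_le_rpow hG0 b1 hγ2
    have c2 : (G.card : ℝ) ^ (1 / γ) ≤
        (2 * K * ((near P i (rep t).1).card : ℝ) ^ γ) ^ (1 / γ) :=
      Real.rpow_le_rpow hG0 b2 hγ1.le
    have e2 : (57960603 * x ^ 2) ^ (1 - 1 / γ) = 57960603 ^ (1 - 1 / γ) * x ^ (2 - 2 / γ) := by
      rw [Real.mul_rpow (by norm_num) (by positivity), ← Real.rpow_natCast x 2,
        ← Real.rpow_mul hx.le]
      congr 2
      push_cast
      ring
    have e3' : (2 * K * ((near P i (rep t).1).card : ℝ) ^ γ) ^ (1 / γ)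
        = (2 * K) ^ (1 / γ) * (near P i (rep t).1).card := by
      rw [Real.mul_rpow (by positivity) (Real.rpow_nonneg hN0 γ), ← Real.rpow_mul hN0]
      have : γ * (1 / γ) = 1 := by field_simp
      rw [this, Real.rpow_one]
    rw [e2] at c1
    rw [e3'] at c2
    calc (G.card : ℝ) = (G.card : ℝ) ^ (1 - 1 / γ) * (G.card : ℝ) ^ (1 / γ) := e1
      _ ≤ (57960603 ^ (1 - 1 / γ) * x ^ (2 - 2 / γ)) *
          ((2 * K) ^ (1 / γ) * (near P i (rep t).1).card) :=
          mul_le_mul c1 c2 (Real.rpow_nonneg hG0 _) (by positivity)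
      _ = _ := by ring
  have h1 : (T.card : ℝ) = ∑ t ∈ T.image fone, ((T.filter (fun e => fone e = t)).card : ℝ) := by
    rw [Finset.card_eq_sum_card_image fone T]
    push_cast
    rfl
  rw [h1]
  refine (Finset.sum_le_sum hpart).trans ?_
  rw [← Finset.mul_sum]
  calc _ ≤ 57960603 ^ (1 - 1 / γ) * (2 * K) ^ (1 / γ) * x ^ (2 - 2 / γ) *
        (16974593 * (P.card : ℝ)) := by
        apply mul_le_mul_of_nonneg_left h2'
        positivity
    _ = _ := by ring

/-- Second bound for one scale. -/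
theorem scale_B {P : Finset E} {δ Δ : ℝ} (hδ : 0 < δ)
    (hsep : ∀ p ∈ P, ∀ q ∈ P, p ≠ q → δ ≤ dist p q)
    (hdiam : ∀ p ∈ P, ∀ q ∈ P, dist p q ≤ Δ * δ) (hΔ : 0 < Δ) (i : ℤ) :
    ((edgesAt P i).card : ℝ) ≤ (17432404840089 * Δ ^ 3) / ((2 : ℝ) ^ i / δ) := by
  classical
  set T := edgesAt P i with hTdef
  have hp : (0 : ℝ) < (2 : ℝ) ^ i := by positivity
  have hx : 0 < (2 : ℝ) ^ i / δ := by positivity
  set x := (2 : ℝ) ^ i / δ with hxdef
  rcases T.eq_empty_or_nonempty with h0 | ⟨e0, he0⟩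
  · rw [h0]
    simp only [Finset.card_empty, Nat.cast_zero]
    positivity
  obtain ⟨ha0, hs0⟩ := mem_edgesAt.1 he0
  have hxΔ : x ≤ Δ := by
    have h1 := scale_le ha0.2.2.1
    rw [hs0] at h1
    have h2 := hdiam _ ha0.1 _ ha0.2.1
    rw [hxdef, div_le_iff₀ hδ]
    linarith
  have h1 := scale_card hδ hsep i T (fun e he => (mem_edgesAt.1 he).1)
    (fun e he => (mem_edgesAt.1 he).2)
  set N : ℕ := ⌊32 * (Δ / x)⌋₊ + 1 with hN
  have hNle : (N : ℝ) ≤ 32 * (Δ / x) + 1 := by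
    rw [hN]
    push_cast
    have := Nat.floor_le (show 0 ≤ 32 * (Δ / x) by positivity)
    linarith
  have hΔx : 1 ≤ Δ / x := (one_le_div hx).2 hxΔ
  have hcard : (T.image fone).card ≤ (2 * N + 1) ^ 3 := by
    have hb : (Fintype.piFinset (fun _ : Fin 3 => Finset.Icc (-(N : ℤ)) N)).card
        = (2 * N + 1) ^ 3 := by
      rw [Fintype.card_piFinset]
      simp only [Int.card_Icc, Finset.prod_const, Finset.card_univ, Fintype.card_fin]
      congr 1
      omega
    rw [← hb]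
    apply Finset.card_le_card_of_injOn (fun t => fun j => t.2 j - cell (i - 4) e0.1 j)
    · intro t ht
      obtain ⟨e, he, rfl⟩ := Finset.mem_image.1 (Finset.mem_coe.1 ht)
      obtain ⟨ha, hs⟩ := mem_edgesAt.1 he
      rw [Finset.mem_coe, Fintype.mem_piFinset]
      intro j
      have hd := hdiam _ ha0.1 _ ha.1
      have hj := (abs_coord_le e0.1 e.1 j).trans hd
      have hsd : (0 : ℝ) < (2 : ℝ) ^ (i - 4 - 1) := by positivity
      have hs32 : (2 : ℝ) ^ i = 32 * (2 : ℝ) ^ (i - 4 - 1) := by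
        have : (32 : ℝ) = (2 : ℝ) ^ (5 : ℤ) := by norm_num
        rw [this, ← zpow_add₀ (by norm_num : (2 : ℝ) ≠ 0)]; congr 1; ring
      have e5 : 32 * (Δ / x) = Δ * δ / (2 : ℝ) ^ (i - 4 - 1) := by
        rw [hxdef, hs32]
        field_simp
      show (fone e).2 j - cell (i - 4) e0.1 j ∈ _
      have e6 : (fone e).2 = cell (i - 4) e.1 := by
        unfold fone
        rw [hs]
      rw [e6]
      show ⌊e.1 j / (2 : ℝ) ^ (i - 4 - 1)⌋ - ⌊e0.1 j / (2 : ℝ) ^ (i - 4 - 1)⌋ ∈ _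
      set s := (2 : ℝ) ^ (i - 4 - 1) with hsdef
      have h3 : |e.1 j / s - e0.1 j / s| ≤ 32 * (Δ / x) := by
        have e1 : e.1 j / s - e0.1 j / s = (e.1 j - e0.1 j) / s := by ring
        rw [e1, abs_div, abs_of_pos hsd, e5]
        exact div_le_div_of_nonneg_right hj hsd.le
      obtain ⟨h4, h5⟩ := abs_le.1 h3
      have hfl : 32 * (Δ / x) < N := by
        rw [hN]
        push_cast
        exact Nat.lt_floor_add_one _
      have a1 := Int.floor_le (e.1 j / s)
      have a2 := Int.lt_floor_add_one (e.1 j / s)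
      have b1 := Int.floor_le (e0.1 j / s)
      have b2 := Int.lt_floor_add_one (e0.1 j / s)
      have c1 : ((⌊e.1 j / s⌋ - ⌊e0.1 j / s⌋ : ℤ) : ℝ) < ((N : ℤ) : ℝ) + 1 := by
        push_cast; linarith
      have c2 : -(((N : ℤ) : ℝ) + 1) < ((⌊e.1 j / s⌋ - ⌊e0.1 j / s⌋ : ℤ) : ℝ) := by
        push_cast; linarith
      have c1' : ⌊e.1 j / s⌋ - ⌊e0.1 j / s⌋ < (N : ℤ) + 1 := by exact_mod_cast c1
      have c2' : -((N : ℤ) + 1) < ⌊e.1 j / s⌋ - ⌊e0.1 j / s⌋ := by exact_mod_cast c2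
      rw [Finset.mem_Icc]
      omega
    · intro t ht t' ht' hE
      obtain ⟨e, he, rfl⟩ := Finset.mem_image.1 (Finset.mem_coe.1 ht)
      obtain ⟨e', he', rfl⟩ := Finset.mem_image.1 (Finset.mem_coe.1 ht')
      have f1 : (fone e).1 = i := (mem_edgesAt.1 he).2
      have f2 : (fone e').1 = i := (mem_edgesAt.1 he').2
      refine Prod.ext (f1.trans f2.symm) ?_
      funext j
      have := congrFun hE j
      simp only at this
      omega
  have hcardR : ((T.image fone).card : ℝ) ≤ (67 * (Δ / x)) ^ 3 := by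
    have h3 : ((T.image fone).card : ℝ) ≤ (2 * (N : ℝ) + 1) ^ 3 := by exact_mod_cast hcard
    refine h3.trans ?_
    apply pow_le_pow_left₀ (by positivity)
    linarith
  calc (T.card : ℝ) ≤ (T.image fone).card * 57960603 * x ^ 2 := h1
    _ ≤ (67 * (Δ / x)) ^ 3 * 57960603 * x ^ 2 := by gcongr
    _ = (17432404840089 * Δ ^ 3) / x := by
      field_simp
      ring

/-- The transfer theorem: bounds for all sets give better bounds for sets of given spread. -/
theorem spread_bound {γ K : ℝ} (hγ : 1 < γ) (hK : 0 < K)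
    (he : ∀ m : ℕ, (e3 m : ℝ) ≤ K * (m : ℝ) ^ γ) :
    ∃ C : ℝ, ∀ (P : Finset E) (δ Δ : ℝ), 0 < δ → 0 < Δ →
      (∀ p ∈ P, ∀ q ∈ P, p ≠ q → δ ≤ dist p q) → (∀ p ∈ P, ∀ q ∈ P, dist p q ≤ Δ * δ) →
      (numEdges P : ℝ) ≤ C * ((P.card : ℝ) ^ (γ / (3 * γ - 2)) *
        Δ ^ (6 * (γ - 1) / (3 * γ - 2))) := by
  classical
  have hγ0 : 0 < γ := by linarith
  set a := 2 - 2 / γ with ha
  have ha0 : 0 < a := by
    have : 2 / γ < 2 := by
      rw [div_lt_iff₀ hγ0]
      linarith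
    linarith
  set A0 : ℝ := 57960603 ^ (1 - 1 / γ) * (2 * K) ^ (1 / γ) * 16974593 with hA0
  have hA0p : 0 < A0 := by positivity
  set B0 : ℝ := 17432404840089 with hB0
  have hB0p : 0 < B0 := by rw [hB0]; norm_num
  refine ⟨((2 : ℝ) ^ a / ((2 : ℝ) ^ a - 1) + 2) * (A0 ^ (1 / (1 + a)) * B0 ^ (a / (1 + a))),
    fun P δ Δ hδ hΔ hsep hdiam => ?_⟩
  have h2a : 1 < (2 : ℝ) ^ a := Real.one_lt_rpow (by norm_num) ha0
  have h2a' : 0 < (2 : ℝ) ^ a - 1 := by linarith
  rcases Nat.eq_zero_or_pos P.card with hz | hpos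
  · have hP : P = ∅ := Finset.card_eq_zero.1 hz
    have h0 : numEdges P ≤ P.card * P.card := numEdges_le_sq P
    rw [hz] at h0
    have h1 : (numEdges P : ℝ) ≤ 0 := by exact_mod_cast h0
    refine h1.trans ?_
    positivity
  have hn : (0 : ℝ) < P.card := by exact_mod_cast hpos
  have hsum := sum_min (A := A0 * P.card) (B := B0 * Δ ^ 3) (a := a) (δ := δ) (by positivity)
    (by positivity) ha0 hδ (scales P) (fun i => ((edgesAt P i).card : ℝ))
    (fun i _ => scale_A hδ hγ.le hK he hsep i)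
    (fun i _ => scale_B hδ hsep hdiam hΔ i)
  have h1 : ((edges P).card : ℝ) = ∑ i ∈ scales P, ((edgesAt P i).card : ℝ) := by
    rw [edges_card]
    push_cast
    rfl
  have h2 : (numEdges P : ℝ) ≤ (edges P).card := by exact_mod_cast numEdges_le P
  rw [h1] at h2
  refine (h2.trans hsum).trans (le_of_eq ?_)
  have e1 : (A0 * (P.card : ℝ)) ^ (1 / (1 + a))
      = A0 ^ (1 / (1 + a)) * (P.card : ℝ) ^ (γ / (3 * γ - 2)) := by
    rw [Real.mul_rpow hA0p.le hn.le]
    congr 2
    rw [ha]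
    have h3 : 3 * γ - 2 ≠ 0 := by
      have : 0 < 3 * γ - 2 := by linarith
      exact this.ne'
    have h4 : (1 : ℝ) + (2 - 2 / γ) = (3 * γ - 2) / γ := by
      field_simp
      ring
    rw [h4, one_div_div]
  have e2 : (B0 * Δ ^ 3) ^ (a / (1 + a))
      = B0 ^ (a / (1 + a)) * Δ ^ (6 * (γ - 1) / (3 * γ - 2)) := by
    rw [Real.mul_rpow hB0p.le (by positivity), ← Real.rpow_natCast Δ 3, ← Real.rpow_mul hΔ.le]
    congr 2
    rw [ha]
    have h3 : 3 * γ - 2 ≠ 0 := by
      have : 0 < 3 * γ - 2 := by linarith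
      exact this.ne'
    have h4 : (1 : ℝ) + (2 - 2 / γ) = (3 * γ - 2) / γ := by
      field_simp
      ring
    rw [h4]
    push_cast
    field_simp
    ring
  rw [e1, e2]
  ring

end Helper76.RNGP
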