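import Pool.Agent.helper76.RNGP.Keys

/-!
# Edges of relative neighbourhood graphs pack in a surface: the weighted inequality and one scale
-/

namespace Helper76.RNGP

open scoped InnerProductSpace
open Helper5.RNG Helper5.RNGraph

/-- The distance from `p` to the nearest other point of `P` that has an edge whose length is
comparable (up to the factor two) to `dist p q`. -/
noncomputable def gap (P : Finset E) (p q : E) : ℝ :=
  sInf {t | ∃ p' q', (relNbhd P).Adj p' q' ∧ p' ≠ p ∧ dist p q ≤ 2 * dist p' q' ∧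
    dist p' q' ≤ 2 * dist p q ∧ t = dist p p'}

lemma gap_nonneg (P : Finset E) (p q : E) : 0 ≤ gap P p q := by
  apply Real.sInf_nonneg
  rintro t ⟨p', q', -, -, -, -, rfl⟩
  exact dist_nonneg

lemma gap_le {P : Finset E} {p q p' q' : E} (h : (relNbhd P).Adj p' q') (h1 : p' ≠ p)
    (h2 : dist p q ≤ 2 * dist p' q') (h3 : dist p' q' ≤ 2 * dist p q) :
    gap P p q ≤ dist p p' := by
  apply csInf_le
  · refine ⟨0, ?_⟩
    rintro t ⟨p', q', -, -, -, -, rfl⟩
    exact dist_nonneg
  · exact ⟨p', q', h, h1, h2, h3, rfl⟩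

lemma gap_le_dist {P : Finset E} {p q : E} (h : (relNbhd P).Adj p q) : gap P p q ≤ dist p q := by
  have hd : 0 ≤ dist p q := dist_nonneg
  apply gap_le h.symm h.2.2.1.symm
  · rw [dist_comm q p]; linarith
  · rw [dist_comm q p]; linarith

lemma zpow_succ_two (i : ℤ) : (2 : ℝ) ^ (i + 1) = 2 * (2 : ℝ) ^ i := by
  rw [zpow_add₀ (by norm_num : (2 : ℝ) ≠ 0)]
  ring

lemma comparable {e e' : E × E} (h : e.1 ≠ e.2) (h' : e'.1 ≠ e'.2)
    (hs : scale e.1 e.2 = scale e'.1 e'.2) : dist e.1 e.2 ≤ 2 * dist e'.1 e'.2 := by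
  have h1 := lt_scale e.1 e.2
  have h2 := scale_le h'
  rw [← hs] at h2
  rw [zpow_succ_two] at h1
  linarith

/-- The weighted inequality. -/
theorem weighted (P : Finset E) :
    ∑ e ∈ edges P, (min (gap P e.1 e.2) (gap P e.2 e.1) / dist e.1 e.2) ^ 2
      ≤ 7245075375 * P.card := by
  classical
  have h1 : ∑ e ∈ edges P, (min (gap P e.1 e.2) (gap P e.2 e.1) / dist e.1 e.2) ^ 2
      ≤ ((edges P).image fkey).card * 9 := by
    apply sum_by_key
    intro k hk
    obtain ⟨e0, he0, rfl⟩ := Finset.mem_image.1 hk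
    set F := (edges P).filter (fun e => fkey e = fkey e0) with hF
    have hadj : ∀ e ∈ F, (relNbhd P).Adj e.1 e.2 := fun e he =>
      mem_edges.1 (Finset.mem_filter.1 he).1
    have hkey : ∀ e ∈ F, ∀ e' ∈ F, fkey e = fkey e' := fun e he e' he' => by
      rw [(Finset.mem_filter.1 he).2, (Finset.mem_filter.1 he').2]
    have hi : ∀ e ∈ F, scale e.1 e.2 = scale e0.1 e0.2 := fun e he =>
      (fkey_eq (Finset.mem_filter.1 he).2).1
    set i := scale e0.1 e0.2 with hidef
    have hp : (0 : ℝ) < (2 : ℝ) ^ i := by positivity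
    have hw := fiber_weight F hadj hkey (fun e => min (gap P e.1 e.2) (gap P e.2 e.1))
      (fun e _ => le_min (gap_nonneg _ _ _) (gap_nonneg _ _ _))
      (fun e he e' he' hne => by
        refine (min_le_left _ _).trans (gap_le (hadj e' he') hne.symm ?_ ?_)
        · exact comparable (hadj e he).2.2.1 (hadj e' he').2.2.1 (by rw [hi e he, hi e' he'])
        · exact comparable (hadj e' he').2.2.1 (hadj e he).2.2.1 (by rw [hi e he, hi e' he']))
      (fun e he e' he' hne => by
        refine (min_le_right _ _).trans (gap_le (hadj e' he').symm hne.symm ?_ ?_)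
        · rw [dist_comm e.2, dist_comm e'.2]
          exact comparable (hadj e he).2.2.1 (hadj e' he').2.2.1 (by rw [hi e he, hi e' he'])
        · rw [dist_comm e.2, dist_comm e'.2]
          exact comparable (hadj e' he').2.2.1 (hadj e he).2.2.1 (by rw [hi e he, hi e' he']))
      hi
      (fun e he => by
        refine (min_le_left _ _).trans ((gap_le_dist (hadj e he)).trans ?_)
        have := lt_scale e.1 e.2
        rw [hi e he, zpow_succ_two] at this
        exact this.le)
    calc ∑ e ∈ F, (min (gap P e.1 e.2) (gap P e.2 e.1) / dist e.1 e.2) ^ 2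
        ≤ ∑ e ∈ F, min (gap P e.1 e.2) (gap P e.2 e.1) ^ 2 / ((2 : ℝ) ^ i) ^ 2 := by
          apply Finset.sum_le_sum
          intro e he
          rw [div_pow]
          have h2 := scale_le (hadj e he).2.2.1
          rw [hi e he] at h2
          have h3 : ((2 : ℝ) ^ i) ^ 2 ≤ dist e.1 e.2 ^ 2 := pow_le_pow_left₀ hp.le h2 2
          exact div_le_div_of_nonneg_left (sq_nonneg _) (by positivity) h3
      _ = (∑ e ∈ F, min (gap P e.1 e.2) (gap P e.2 e.1) ^ 2) / ((2 : ℝ) ^ i) ^ 2 := by
          rw [Finset.sum_div]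
      _ ≤ 9 := by
          rw [div_le_iff₀ (by positivity)]
          exact hw
  have h2 := keys_le (edges P)
  have h3 := fone_card P
  have h4 : ((edges P).image fkey).card ≤ 125 * P.card * 6440067 :=
    h2.trans (Nat.mul_le_mul_right _ h3)
  have h5 : (((edges P).image fkey).card : ℝ) ≤ 125 * P.card * 6440067 := by exact_mod_cast h4
  nlinarith

/-- One scale, separated points. -/
theorem scale_card {P : Finset E} {δ : ℝ} (hδ : 0 < δ)
    (hsep : ∀ p ∈ P, ∀ q ∈ P, p ≠ q → δ ≤ dist p q) (i : ℤ) (T : Finset (E × E))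
    (hT : ∀ e ∈ T, (relNbhd P).Adj e.1 e.2) (hi : ∀ e ∈ T, scale e.1 e.2 = i) :
    (T.card : ℝ) ≤ (T.image fone).card * 57960603 * ((2 : ℝ) ^ i / δ) ^ 2 := by
  classical
  have hp : (0 : ℝ) < (2 : ℝ) ^ i := by positivity
  have h1 : (T.card : ℝ) ≤ (T.image fkey).card * (9 * ((2 : ℝ) ^ i / δ) ^ 2) := by
    have h0 : (T.card : ℝ) = ∑ e ∈ T, (1 : ℝ) := by simp
    rw [h0]
    apply sum_by_key
    intro k hk
    obtain ⟨e0, he0, rfl⟩ := Finset.mem_image.1 hk
    set F := T.filter (fun e => fkey e = fkey e0) with hF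
    have hadj : ∀ e ∈ F, (relNbhd P).Adj e.1 e.2 := fun e he => hT e (Finset.mem_filter.1 he).1
    have hkey : ∀ e ∈ F, ∀ e' ∈ F, fkey e = fkey e' := fun e he e' he' => by
      rw [(Finset.mem_filter.1 he).2, (Finset.mem_filter.1 he').2]
    have hi' : ∀ e ∈ F, scale e.1 e.2 = i := fun e he => hi e (Finset.mem_filter.1 he).1
    have hw := fiber_weight F hadj hkey (fun _ => δ) (fun _ _ => hδ.le)
      (fun e he e' he' hne => hsep _ (hadj e he).1 _ (hadj e' he').1 hne)
      (fun e he e' he' hne => hsep _ (hadj e he).2.1 _ (hadj e' he').2.1 hne) hi'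
      (fun e he => by
        have h2 := hsep _ (hadj e he).1 _ (hadj e he).2.1 (hadj e he).2.2.1
        have := lt_scale e.1 e.2
        rw [hi' e he, zpow_succ_two] at this
        linarith)
    rw [Finset.sum_const, nsmul_eq_mul] at hw
    rw [Finset.sum_const, nsmul_eq_mul, mul_one, div_pow]
    rw [← mul_div_assoc, le_div_iff₀ (by positivity)]
    exact hw
  have h2 := keys_le T
  have h3 : ((T.image fkey).card : ℝ) ≤ (T.image fone).card * 6440067 := by exact_mod_cast h2
  have h4 : (0 : ℝ) ≤ 9 * ((2 : ℝ) ^ i / δ) ^ 2 := by positivity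
  have h5 := mul_le_mul_of_nonneg_right h3 h4
  linarith

end Helper76.RNGP
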